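import Pool.Agent.VX.Defs

/-! Northcott's theorem for points of bounded degree. -/

open NumberField Height

noncomputable section
namespace VX

universe u

/-- an archimedean absolute value is at most the height -/
private lemma norm_le_mulHeight₁ {L : Type u} [Field L] [NumberField L] (x : L) (φ : L →+* ℂ) :
    ‖φ x‖ ≤ mulHeight₁ x := by
  classical
  have h1 : (1 : ℝ) ≤ ∏ᶠ v : FinitePlace L, max (v x) 1 :=
    finprod_induction (fun t : ℝ => 1 ≤ t) le_rfl
      (fun a b ha hb => one_le_mul_of_one_le_of_one_le ha hb) (fun v => le_max_right _ _)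
  have h2 : max (InfinitePlace.mk φ x) 1 ≤
      ∏ v : InfinitePlace L, max (v x) 1 ^ v.mult := by
    rw [← Finset.mul_prod_erase _ _ (Finset.mem_univ (InfinitePlace.mk φ))]
    have h3 : (1 : ℝ) ≤ ∏ v ∈ Finset.univ.erase (InfinitePlace.mk φ), max (v x) 1 ^ v.mult :=
      Finset.prod_induction _ (fun t : ℝ => 1 ≤ t)
        (fun a b ha hb => one_le_mul_of_one_le_of_one_le ha hb) le_rfl
        (fun v _ => one_le_pow₀ (le_max_right _ _))
    have h4 : max (InfinitePlace.mk φ x) 1 ≤
        max (InfinitePlace.mk φ x) 1 ^ (InfinitePlace.mk φ).mult :=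
      le_self_pow₀ (le_max_right _ _) (InfinitePlace.mult_ne_zero)
    refine h4.trans (le_mul_of_one_le_right (by positivity) h3)
  rw [NumberField.mulHeight₁_eq]
  calc ‖φ x‖ = InfinitePlace.mk φ x := rfl
    _ ≤ max (InfinitePlace.mk φ x) 1 := le_max_left _ _
    _ ≤ ∏ v : InfinitePlace L, max (v x) 1 ^ v.mult := h2
    _ ≤ _ := le_mul_of_one_le_right ((by positivity : (0:ℝ) ≤ max (InfinitePlace.mk φ x) 1).trans h2) h1

/-- the elements of bounded degree and bounded height are finitely many -/
private lemma finite_elements (A : Type u) [Field A] [CharZero A] (D : ℕ) (B : ℝ) :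
    {z : A | ∃ (L : Type u) (_ : Field L) (_ : NumberField L) (ι : L →+* A) (x : L),
      Module.finrank ℚ L ≤ D ∧ mulHeight₁ x ≤ B ∧ ι x = z}.Finite := by
  classical
  let C := Nat.ceil (max (B * B) 1 ^ D * 2 ^ D)
  have h0 := Polynomial.bUnion_roots_finite (algebraMap ℤ A) D (Set.finite_Icc (-C : ℤ) C)
  have h1 := (Set.finite_Iic ⌊B⌋₊).image2 (fun (n : ℕ) (w : A) => w / n) h0
  refine h1.subset ?_
  rintro z ⟨L, _, _, ι, x, hL, hx, rfl⟩
  obtain ⟨n, hn0, hn, hint⟩ := exists_nat_le_mulHeight₁ x
  have hnB : (n : ℝ) ≤ B := hn.trans hx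
  have hB : 0 ≤ B := (Nat.cast_nonneg n).trans hnB
  refine ⟨n, Nat.le_floor hnB, ι (n * x), ?_, ?_⟩
  · have hbd : ∀ φ : L →+* ℂ, ‖φ (n * x)‖ ≤ B * B := by
      intro φ
      rw [map_mul, norm_mul, map_natCast, Complex.norm_natCast]
      exact mul_le_mul hnB ((norm_le_mulHeight₁ x φ).trans hx) (norm_nonneg _) hB
    have hmin := minpoly.isIntegrallyClosed_eq_field_fractions' ℚ hint
    have hdeg : (minpoly ℤ ((n : L) * x)).natDegree ≤ Module.finrank ℚ L := by
      rw [← (minpoly.monic hint).natDegree_map (algebraMap ℤ ℚ), ← hmin]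
      exact minpoly.natDegree_le _
    simp only [Set.mem_iUnion]
    refine ⟨minpoly ℤ ((n : L) * x), ⟨hdeg.trans hL, fun i => ?_⟩, ?_⟩
    · rw [Set.mem_Icc, ← abs_le, ← @Int.cast_le ℝ]
      have h2 := Embeddings.coeff_bdd_of_norm_le hbd i
      rw [hmin, Polynomial.coeff_map, eq_intCast, Int.norm_cast_rat, Int.norm_eq_abs] at h2
      have h3 : max (B * B) 1 ^ Module.finrank ℚ L *
          ((Module.finrank ℚ L).choose (Module.finrank ℚ L / 2) : ℝ) ≤
            max (B * B) 1 ^ D * 2 ^ D := by
        refine mul_le_mul (pow_le_pow_right₀ (le_max_right _ _) hL) ?_ (by positivity)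
          (by positivity)
        refine le_trans ?_ (pow_le_pow_right₀ (by norm_num : (1 : ℝ) ≤ 2) hL)
        exact_mod_cast Nat.choose_le_two_pow _ _
      push_cast
      exact (h2.trans h3).trans (Nat.le_ceil _)
    · rw [Finset.mem_coe, Multiset.mem_toFinset, Polynomial.mem_roots_map_of_injective
        (RingHom.injective_int _) (minpoly.ne_zero hint)]
      have h4 : (algebraMap ℤ A) = ι.comp (algebraMap ℤ L) := RingHom.ext_int _ _
      rw [h4, ← Polynomial.hom_eval₂, ← Polynomial.aeval_def, minpoly.aeval, map_zero]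
  · have hn' : (n : A) ≠ 0 := Nat.cast_ne_zero.2 hn0
    simp only [map_mul, map_natCast]
    field_simp

variable {K : Type u} [Field K] [NumberField K] {N : ℕ}

private lemma coords_injective :
    Function.Injective fun (P : Pts K N) (i : Fin (N + 1)) => (coords P i : AlgebraicClosure K) := by
  intro P Q h
  have hP := pivot_spec P
  have hQ := pivot_spec Q
  rw [← P.mk_rep, ← Q.mk_rep, Projectivization.mk_eq_mk_iff']
  refine ⟨P.rep (pivot P) / Q.rep (pivot Q), ?_⟩
  funext i
  have h1 : P.rep i / P.rep (pivot P) = Q.rep i / Q.rep (pivot Q) := congrFun h i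
  rw [Pi.smul_apply, smul_eq_mul]
  rw [div_eq_iff hP] at h1
  rw [h1]
  ring

private lemma coords_pivot (P : Pts K N) : coords P (pivot P) = 1 :=
  Subtype.ext (div_self (pivot_spec P))

theorem ptsLE_finite (X : Set (Pts K N)) (d : ℕ) (T : ℝ) : (ptsLE X d T).Finite := by
  have hS := finite_elements (AlgebraicClosure K) (Module.finrank ℚ K * d)
    (Real.exp (max T 0 * d))
  refine Set.Finite.of_finite_image (f := fun (P : Pts K N) (i : Fin (N + 1)) =>
    (coords P i : AlgebraicClosure K)) ?_ coords_injective.injOn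
  refine (Set.Finite.pi' (fun _ => hS)).subset ?_
  rintro _ ⟨P, ⟨-, hd, hT⟩, rfl⟩ i
  refine ⟨resField P, inferInstance, numberFieldResField P,
    algebraMap (resField P) (AlgebraicClosure K), coords P i, ?_, ?_, rfl⟩
  · have h := Module.finrank_mul_finrank ℚ K (resField P)
    rw [← h]
    exact Nat.mul_le_mul_left _ hd
  · have hpos : (0 : ℝ) < Module.finrank K (resField P) := by
      exact_mod_cast Module.finrank_pos
    have h1 : logHeight (coords P) ≤ max T 0 * d := by
      have h2 : logHeight (coords P) = height P * Module.finrank K (resField P) := by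
        unfold height
        rw [div_mul_cancel₀ _ hpos.ne']
      rw [h2]
      have hd' : (Module.finrank K (resField P) : ℝ) ≤ d := by exact_mod_cast hd
      calc height P * Module.finrank K (resField P)
          ≤ max T 0 * Module.finrank K (resField P) :=
            mul_le_mul_of_nonneg_right (hT.trans (le_max_left _ _)) hpos.le
        _ ≤ max T 0 * d := mul_le_mul_of_nonneg_left hd' (le_max_right _ _)
    have h3 : mulHeight₁ (coords P i) ≤ mulHeight (coords P) := by
      rw [mulHeight₁_eq_mulHeight]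
      have h4 := mulHeight_comp_le (![i, pivot P] : Fin 2 → Fin (N + 1)) (coords P)
      have h5 : (coords P) ∘ (![i, pivot P] : Fin 2 → Fin (N + 1)) = ![coords P i, 1] := by
        funext j
        fin_cases j
        · rfl
        · simp [coords_pivot]
      rwa [h5] at h4
    refine h3.trans ?_
    rw [logHeight_eq_log_mulHeight] at h1
    exact (Real.log_le_iff_le_exp (mulHeight_pos _)).1 h1

end VX
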