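import Pool.Agent.VX.Defs

/-! Height of a point with integral coordinates over an algebraic integer. -/

open scoped LinearAlgebra.Projectivization
open MvPolynomial NumberField

noncomputable section
namespace VX

universe u

variable {K : Type u} [Field K] [NumberField K] {N : ℕ}

/-- the quotients of coordinates of `mk y` -/
theorem rep_div (y : Fin (N + 1) → AlgebraicClosure K) (hy : y ≠ 0) (i j : Fin (N + 1)) :
    (Projectivization.mk (AlgebraicClosure K) y hy).rep i /
      (Projectivization.mk (AlgebraicClosure K) y hy).rep j = y i / y j := by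
  obtain ⟨a, ha⟩ := Projectivization.exists_smul_eq_mk_rep (AlgebraicClosure K) y hy
  rw [← ha]
  have ha0 : (a : AlgebraicClosure K) ≠ 0 := a.ne_zero
  simp only [Pi.smul_apply, Units.smul_def, smul_eq_mul]
  rw [mul_div_mul_left _ _ ha0]

/-- the residue field of `(y_0 : … : y_N)` with `y_{i₀} = 1` -/
theorem resField_mk (y : Fin (N + 1) → AlgebraicClosure K) (i₀ : Fin (N + 1)) (h : y i₀ = 1)
    (hy : y ≠ 0) : resField (Projectivization.mk (AlgebraicClosure K) y hy) =
      IntermediateField.adjoin K (Set.range y) := by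
  apply le_antisymm
  · unfold resField
    rw [IntermediateField.adjoin_le_iff]
    rintro z ⟨q, rfl⟩
    simp only [rep_div, SetLike.mem_coe]
    exact div_mem (IntermediateField.subset_adjoin _ _ ⟨_, rfl⟩)
      (IntermediateField.subset_adjoin _ _ ⟨_, rfl⟩)
  · rw [IntermediateField.adjoin_le_iff]
    rintro z ⟨i, rfl⟩
    have : y i = (Projectivization.mk (AlgebraicClosure K) y hy).rep i /
      (Projectivization.mk (AlgebraicClosure K) y hy).rep i₀ := by
      rw [rep_div, h, div_one]
    rw [this]
    exact IntermediateField.subset_adjoin _ _ ⟨(i, i₀), rfl⟩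

/-- sums over the infinite places with multiplicities are sums over the complex embeddings -/
theorem sum_places {L : Type u} [Field L] [NumberField L] (g : ℝ → ℝ) (x : L) :
    ∑ v : InfinitePlace L, (v.mult : ℝ) * g (v x) = ∑ φ : L →+* ℂ, g ‖φ x‖ := by
  classical
  rw [← Finset.sum_fiberwise Finset.univ (fun φ : L →+* ℂ => InfinitePlace.mk φ)]
  refine Finset.sum_congr rfl fun v _ => ?_
  rw [Finset.sum_congr rfl (g := fun _ => g (v x))]
  · rw [Finset.sum_const, InfinitePlace.card_filter_mk_eq, nsmul_eq_mul]
  · intro φ hφ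
    rw [Finset.mem_filter] at hφ
    rw [← hφ.2, InfinitePlace.apply]

/-- sums over the complex embeddings are sums over the roots of the minimal polynomial -/
theorem sum_embeddings {L : Type u} [Field L] [NumberField L] (g : ℂ → ℝ) (x : L) :
    ∑ φ : L →+* ℂ, g (φ x) = (Module.finrank (IntermediateField.adjoin ℚ {x}) L : ℝ) *
      (((minpoly ℚ x).map (algebraMap ℚ ℂ)).roots.map g).sum := by
  classical
  have hx : IsIntegral ℚ x := Algebra.IsIntegral.isIntegral x
  let pb := IntermediateField.adjoin.powerBasis hx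
  have h1 : ∑ φ : L →+* ℂ, g (φ x) = ∑ φ : L →ₐ[ℚ] ℂ, g (φ x) := by
    refine Fintype.sum_equiv (RingHom.equivRatAlgHom (R := L) (S := ℂ)) _ _ ?_
    intro φ
    rfl
  rw [h1]
  let : Fintype ((IntermediateField.adjoin ℚ {x}) →ₐ[ℚ] ℂ) := PowerBasis.AlgHom.fintype pb
  rw [Fintype.sum_equiv algHomEquivSigma (fun σ : L →ₐ[ℚ] ℂ => g (σ x))
    (fun σ : (Σ f : (IntermediateField.adjoin ℚ {x}) →ₐ[ℚ] ℂ,
      @AlgHom (IntermediateField.adjoin ℚ {x}) L ℂ _ _ _ _ f.toRingHom.toAlgebra) =>
        g (σ.1 pb.gen)),
    ← Finset.univ_sigma_univ, Finset.sum_sigma]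
  · have h2 : ∀ σ : (IntermediateField.adjoin ℚ {x}) →ₐ[ℚ] ℂ,
        (∑ _s : @AlgHom (IntermediateField.adjoin ℚ {x}) L ℂ _ _ _ _ σ.toRingHom.toAlgebra,
          g (σ pb.gen)) = (Module.finrank (IntermediateField.adjoin ℚ {x}) L : ℝ) *
          g (σ pb.gen) := by
      intro σ
      let : Algebra (IntermediateField.adjoin ℚ {x}) ℂ := σ.toRingHom.toAlgebra
      simp_rw [Finset.sum_const, Finset.card_univ, nsmul_eq_mul]
      congr 2
      exact AlgHom.card (IntermediateField.adjoin ℚ {x}) L ℂ
    rw [Finset.sum_congr rfl (fun σ _ => h2 σ), ← Finset.mul_sum]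
    congr 1
    have hgen : minpoly ℚ pb.gen = minpoly ℚ x := by
      rw [IntermediateField.adjoin.powerBasis_gen]
      exact IntermediateField.minpoly_gen ℚ x
    rw [← Polynomial.aroots_def]
    have hnd : ((minpoly ℚ pb.gen).aroots ℂ).Nodup :=
      Polynomial.nodup_roots ((Polynomial.separable_map _).2
        (minpoly.irreducible pb.isIntegral_gen).separable)
    rw [← hgen]
    have h4 : (∑ σ : (IntermediateField.adjoin ℚ {x}) →ₐ[ℚ] ℂ, g (σ pb.gen)) =
        ∑ z ∈ ((minpoly ℚ pb.gen).aroots ℂ).toFinset, g z := by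
      refine Finset.sum_bij (fun σ _ => σ pb.gen) ?_ ?_ ?_ ?_
      · intro σ _
        rw [Multiset.mem_toFinset, Polynomial.mem_aroots]
        refine ⟨minpoly.ne_zero pb.isIntegral_gen, ?_⟩
        rw [Polynomial.aeval_algHom_apply, minpoly.aeval, map_zero]
      · intro σ _ τ _ h
        exact pb.algHom_ext h
      · intro z hz
        rw [Multiset.mem_toFinset] at hz
        rw [Polynomial.mem_aroots] at hz
        exact ⟨pb.lift z hz.2, Finset.mem_univ _, pb.lift_gen z hz.2⟩
      · intro σ _
        rfl
    rw [h4, Finset.sum_eq_multiset_sum, Multiset.toFinset_val, Multiset.dedup_eq_self.mpr hnd]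
  · intro σ
    rfl

/-- a sum over the embeddings, for a root of a monic irreducible integral polynomial -/
theorem sum_embeddings_le {L : Type u} [Field L] [NumberField L] (g : ℂ → ℝ) (x : L)
    (f : Polynomial ℤ) (hf : f.Monic) (hirr : Irreducible f) (hfx : Polynomial.aeval x f = 0) :
    (f.natDegree : ℝ) * ∑ φ : L →+* ℂ, g (φ x) = (Module.finrank ℚ L : ℝ) *
      ((f.map (Int.castRingHom ℂ)).roots.map g).sum := by
  have hmin : minpoly ℚ x = f.map (Int.castRingHom ℚ) := by
    symm
    refine minpoly.eq_of_irreducible_of_monic ?_ ?_ ?_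
    · exact (hf.irreducible_iff_irreducible_map_fraction_map (K := ℚ)).1 hirr
    · rw [← algebraMap_int_eq, Polynomial.aeval_map_algebraMap]
      exact hfx
    · exact hf.map _
  have hx : IsIntegral ℚ x := Algebra.IsIntegral.isIntegral x
  rw [sum_embeddings, hmin, Polynomial.map_map]
  have h1 : (algebraMap ℚ ℂ).comp (Int.castRingHom ℚ) = Int.castRingHom ℂ :=
    RingHom.ext_int _ _
  have h2 : Module.finrank ℚ (IntermediateField.adjoin ℚ {x}) = f.natDegree := by
    rw [IntermediateField.adjoin.finrank hx, hmin, hf.natDegree_map]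
  rw [h1, ← mul_assoc, ← h2, ← Nat.cast_mul, Module.finrank_mul_finrank]

/-- an embedding of an intermediate field extends to the algebraic closure -/
theorem exists_extend (L : IntermediateField K (AlgebraicClosure K)) (φ : L →+* ℂ) :
    ∃ σ : AlgebraicClosure K →+* ℂ, ∀ z : L, σ (z : AlgebraicClosure K) = φ z := by
  let : Algebra L ℂ := φ.toAlgebra
  have : Algebra.IsAlgebraic L (AlgebraicClosure K) :=
    Algebra.IsAlgebraic.tower_top (K := K) L
  let σ : AlgebraicClosure K →ₐ[L] ℂ := IsAlgClosed.lift
  refine ⟨σ.toRingHom, fun z => ?_⟩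
  exact σ.commutes z

/-- finite places are at most one on integral elements -/
theorem finitePlace_le_one {L : Type u} [Field L] [NumberField L] (v : FinitePlace L) (z : L)
    (hz : IsIntegral ℤ z) : v z ≤ 1 := by
  obtain ⟨a, ha⟩ : ∃ a : 𝓞 L, z = a := ⟨⟨z, hz⟩, rfl⟩
  rw [ha, ← FinitePlace.norm_embedding_eq]
  exact FinitePlace.norm_le_one L v.maximalIdeal a

/-- if all `n * y i` are algebraic integers, with conjugates bounded by powers of the conjugates
of a root `x` of a monic irreducible integral polynomial `f` of small Mahler measure, the height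
is small -/
theorem height_mk_le (y : Fin (N + 1) → AlgebraicClosure K) (i₀ : Fin (N + 1)) (h : y i₀ = 1)
    (hy : y ≠ 0) (n E : ℕ) (hn : 0 < n) (C : ℝ) (hC : 1 ≤ C) (x : AlgebraicClosure K)
    (hx : x ∈ IntermediateField.adjoin K (Set.range y))
    (hint : ∀ i, IsIntegral ℤ ((n : AlgebraicClosure K) * y i))
    (hbd : ∀ (σ : AlgebraicClosure K →+* ℂ) i, ‖σ (y i)‖ ≤ C * max 1 ‖σ x‖ ^ E)
    (f : Polynomial ℤ) (hf : f.Monic) (hirr : Irreducible f) (hfx : Polynomial.aeval x f = 0)
    (H : ℝ) (hH : ((f.map (Int.castRingHom ℂ)).roots.map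
      fun z => Real.log (max 1 ‖z‖)).sum ≤ H) :
    height (Projectivization.mk (AlgebraicClosure K) y hy) ≤
      Module.finrank ℚ K * (Real.log (n * C) + E * H / f.natDegree) := by
  classical
  set P : Pts K N := Projectivization.mk (AlgebraicClosure K) y hy with hP
  have hres : resField P = IntermediateField.adjoin K (Set.range y) := resField_mk y i₀ h hy
  have hmem : ∀ i, y i ∈ resField P := fun i => by
    rw [hres]; exact IntermediateField.subset_adjoin _ _ ⟨i, rfl⟩
  have hxm : x ∈ resField P := by rw [hres]; exact hx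
  let Y : Fin (N + 1) → resField P := fun i => ⟨y i, hmem i⟩
  let X : resField P := ⟨x, hxm⟩
  have hpiv : y (pivot P) ≠ 0 := by
    have h1 := pivot_spec P
    obtain ⟨a, ha⟩ := Projectivization.exists_smul_eq_mk_rep (AlgebraicClosure K) y hy
    intro h0
    apply h1
    rw [hP, ← ha]
    simp only [Pi.smul_apply, Units.smul_def, smul_eq_mul]
    rw [← hP, h0, mul_zero]
  have hYp : Y (pivot P) ≠ 0 := by
    intro h0
    exact hpiv (congrArg Subtype.val h0)
  have hco : coords P = (Y (pivot P))⁻¹ • Y := by
    funext i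
    apply Subtype.ext
    simp only [coords, Pi.smul_apply, smul_eq_mul]
    change P.rep i / P.rep (pivot P) = (y (pivot P))⁻¹ * y i
    rw [hP, rep_div, div_eq_inv_mul]
  have hn0 : (n : resField P) ≠ 0 := by exact_mod_cast hn.ne'
  have hmul : Height.mulHeight (coords P) = Height.mulHeight ((n : resField P) • Y) := by
    rw [hco, Height.mulHeight_smul_eq_mulHeight _ (inv_ne_zero hYp),
      Height.mulHeight_smul_eq_mulHeight _ hn0]
  have hY0 : (n : resField P) • Y ≠ 0 := by
    intro h0
    have h1 := congrFun h0 i₀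
    simp only [Pi.smul_apply, smul_eq_mul, Pi.zero_apply, mul_eq_zero, hn0, false_or] at h1
    have h2 : y i₀ = 0 := congrArg Subtype.val h1
    rw [h] at h2
    exact one_ne_zero h2
  have hn1 : (1 : ℝ) ≤ n := by exact_mod_cast hn
  have hnC : (1 : ℝ) ≤ n * C := by nlinarith
  have hfin : ∀ (v : FinitePlace (resField P)) (i : Fin (N + 1)),
      v (((n : resField P) • Y) i) ≤ 1 := by
    intro v i
    refine finitePlace_le_one v _ ?_
    have h1 := hint i
    have h2 : ((n : AlgebraicClosure K) * y i) =
        algebraMap (resField P) (AlgebraicClosure K) (((n : resField P) • Y) i) := by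
      simp only [Pi.smul_apply, smul_eq_mul, map_mul, map_natCast]
      rfl
    rw [h2] at h1
    exact (isIntegral_algebraMap_iff
      (algebraMap (resField P) (AlgebraicClosure K)).injective).1 h1
  have hfin1 : ∏ᶠ v : FinitePlace (resField P), ⨆ i, v (((n : resField P) • Y) i) ≤ 1 := by
    refine (finprod_induction (p := fun z : ℝ => 0 ≤ z ∧ z ≤ 1) ⟨zero_le_one, le_rfl⟩
      (fun a b ha hb => ⟨mul_nonneg ha.1 hb.1, mul_le_one₀ ha.2 hb.1 hb.2⟩) ?_).2
    intro v
    refine ⟨Real.iSup_nonneg fun i => apply_nonneg _ _, ciSup_le fun i => hfin v i⟩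
  have hinf : ∀ (v : InfinitePlace (resField P)),
      ⨆ i, v (((n : resField P) • Y) i) ≤ n * C * max 1 (v X) ^ E := by
    intro v
    refine ciSup_le fun i => ?_
    obtain ⟨σ, hσ⟩ := exists_extend (resField P) v.embedding
    rw [← v.norm_embedding_eq, ← v.norm_embedding_eq]
    simp only [Pi.smul_apply, smul_eq_mul, map_mul, map_natCast, norm_mul, Complex.norm_natCast]
    rw [mul_assoc, ← hσ, ← hσ]
    exact mul_le_mul_of_nonneg_left (hbd σ i) (by positivity)
  have hle : Height.mulHeight (coords P) ≤
      ∏ v : InfinitePlace (resField P), (n * C * max 1 (v X) ^ E) ^ v.mult := by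
    rw [hmul, NumberField.mulHeight_eq hY0]
    refine (mul_le_of_le_one_right ?_ hfin1).trans ?_
    · exact Finset.prod_nonneg fun v _ =>
        pow_nonneg (Real.iSup_nonneg fun i => apply_nonneg _ _) _
    · refine Finset.prod_le_prod (fun v _ => pow_nonneg (Real.iSup_nonneg fun i =>
        apply_nonneg _ _) _) fun v _ => ?_
      exact pow_le_pow_left₀ (Real.iSup_nonneg fun i => apply_nonneg _ _) (hinf v) _
  have hpos : ∀ v : InfinitePlace (resField P), 0 < n * C * max 1 (v X) ^ E := by
    intro v
    positivity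
  have hlog : Height.logHeight (coords P) ≤
      ∑ v : InfinitePlace (resField P), (v.mult : ℝ) *
        (Real.log (n * C) + E * Real.log (max 1 (v X))) := by
    unfold Height.logHeight
    refine (Real.log_le_log (Height.mulHeight_pos _) hle).trans ?_
    rw [Real.log_prod (fun v _ => (pow_pos (hpos v) _).ne')]
    refine le_of_eq (Finset.sum_congr rfl fun v _ => ?_)
    rw [Real.log_pow, Real.log_mul (by positivity) (by positivity), Real.log_pow]
  have hsum1 : (∑ v : InfinitePlace (resField P), (v.mult : ℝ)) =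
      Module.finrank ℚ (resField P) := by
    rw [← InfinitePlace.sum_mult_eq]
    push_cast
    rfl
  have hsplit : ∑ v : InfinitePlace (resField P), (v.mult : ℝ) *
        (Real.log (n * C) + E * Real.log (max 1 (v X))) =
      Module.finrank ℚ (resField P) * Real.log (n * C) +
        E * ∑ φ : (resField P) →+* ℂ, Real.log (max 1 ‖φ X‖) := by
    rw [← sum_places (fun t => Real.log (max 1 t)) X, ← hsum1, Finset.sum_mul, Finset.mul_sum,
      ← Finset.sum_add_distrib]
    refine Finset.sum_congr rfl fun v _ => ?_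
    ring
  have hfX : Polynomial.aeval X f = 0 := by
    have h1 : algebraMap (resField P) (AlgebraicClosure K) (Polynomial.aeval X f) = 0 := by
      rw [← Polynomial.aeval_algebraMap_apply]
      exact hfx
    exact (map_eq_zero_iff _ (algebraMap (resField P) (AlgebraicClosure K)).injective).1 h1
  have hemb := sum_embeddings_le (fun z => Real.log (max 1 ‖z‖)) X f hf hirr hfX
  have hdeg : 0 < f.natDegree := by
    by_contra h0
    have h1 : f = 1 := hf.natDegree_eq_zero.1 (by omega)
    rw [h1] at hirr
    exact not_irreducible_one hirr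
  have hdegR : (0 : ℝ) < f.natDegree := by exact_mod_cast hdeg
  have hsum2 : ∑ φ : (resField P) →+* ℂ, Real.log (max 1 ‖φ X‖) ≤
      Module.finrank ℚ (resField P) * (H / f.natDegree) := by
    have h1 : (f.natDegree : ℝ) * ∑ φ : (resField P) →+* ℂ, Real.log (max 1 ‖φ X‖) ≤
        Module.finrank ℚ (resField P) * H := by
      rw [hemb]
      exact mul_le_mul_of_nonneg_left hH (by positivity)
    rw [← mul_div_assoc, le_div_iff₀ hdegR, mul_comm]
    exact h1
  have hfr : (Module.finrank ℚ (resField P) : ℝ) =
      Module.finrank ℚ K * Module.finrank K (resField P) := by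
    rw [← Nat.cast_mul, Module.finrank_mul_finrank]
  have hKpos : (0 : ℝ) < Module.finrank K (resField P) := by
    exact_mod_cast Module.finrank_pos
  unfold height
  rw [div_le_iff₀ hKpos]
  have hE : (0 : ℝ) ≤ E := by positivity
  calc Height.logHeight (coords P)
      ≤ Module.finrank ℚ (resField P) * Real.log (n * C) +
        E * ∑ φ : (resField P) →+* ℂ, Real.log (max 1 ‖φ X‖) := hlog.trans hsplit.le
    _ ≤ Module.finrank ℚ (resField P) * Real.log (n * C) +
        E * (Module.finrank ℚ (resField P) * (H / f.natDegree)) := by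
        gcongr
    _ = Module.finrank ℚ K * (Real.log (n * C) + E * H / f.natDegree) *
        Module.finrank K (resField P) := by
        rw [hfr]
        ring

end VX
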