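import Pool.Agent.VX.Defs

/-! Algebraic points on a variety over (almost) arbitrary integers. -/

open scoped LinearAlgebra.Projectivization
open MvPolynomial NumberField

noncomputable section
namespace VX

universe u

/-- extension of homomorphisms to algebraically closed fields along integral extensions -/
lemma exists_extension {R A : Type*} [CommRing R] [CommRing A] (g : R →+* A)
    (hg : Function.Injective g) (hi : g.IsIntegral) {M : Type*} [Field M] [IsAlgClosed M]
    (f : R →+* M) : ∃ h : A →+* M, h.comp g = f := by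
  let _ := g.toAlgebra
  have : Algebra.IsIntegral R A := ⟨hi⟩
  have : (RingHom.ker f).IsPrime := RingHom.ker_isPrime f
  obtain ⟨Q, -, hQp, hQ⟩ := Ideal.exists_ideal_over_prime_of_isIntegral (RingHom.ker f)
    (⊥ : Ideal A) (by
      intro r hr
      have h0 : g r = 0 := hr
      have : r = 0 := hg (by rw [h0, map_zero])
      rw [this]
      exact Ideal.zero_mem _)
  have hker : ∀ a ∈ Q.comap (algebraMap R A), f a = 0 := by
    rw [hQ]
    intro a ha
    exact ha
  let f' : (R ⧸ Q.comap (algebraMap R A)) →+* M := Ideal.Quotient.lift _ f hker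
  have hf' : Function.Injective f' := by
    rw [injective_iff_map_eq_zero]
    intro a ha
    obtain ⟨b, rfl⟩ := Ideal.Quotient.mk_surjective a
    rw [Ideal.Quotient.lift_mk] at ha
    rw [Ideal.Quotient.eq_zero_iff_mem, hQ]
    exact ha
  let _ : Algebra (R ⧸ Q.comap (algebraMap R A)) M := f'.toAlgebra
  have : Module.IsTorsionFree (R ⧸ Q.comap (algebraMap R A)) M :=
    Module.isTorsionFree_iff_algebraMap_injective.2 hf'
  have : Module.IsTorsionFree (R ⧸ Q.comap (algebraMap R A)) (A ⧸ Q) :=
    Module.isTorsionFree_iff_algebraMap_injective.2 Ideal.algebraMap_quotient_injective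
  let h0 : A ⧸ Q →ₐ[R ⧸ Q.comap (algebraMap R A)] M := IsAlgClosed.lift
  refine ⟨(h0 : A ⧸ Q →+* M).comp (Ideal.Quotient.mk Q), ?_⟩
  ext r
  have := h0.commutes (Ideal.Quotient.mk _ r)
  have e1 : algebraMap (R ⧸ Q.comap (algebraMap R A)) (A ⧸ Q) (Ideal.Quotient.mk _ r) =
    Ideal.Quotient.mk Q (g r) := rfl
  have e2 : algebraMap (R ⧸ Q.comap (algebraMap R A)) M (Ideal.Quotient.mk _ r) = f r := rfl
  rw [e1, e2] at this
  exact this

variable {K : Type u} [Field K] [NumberField K] {N : ℕ}

/-- the point `(x, 0, …, 0)` -/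
def pt {s : ℕ} (hs : 0 < s) (x : AlgebraicClosure K) : Fin s → AlgebraicClosure K :=
  fun j => if j = ⟨0, hs⟩ then x else 0

lemma bound_eval {s : ℕ} (hs : 0 < s) (c : MvPolynomial (Fin s) K) : ∃ (C : ℝ) (E : ℕ), 1 ≤ C ∧
    ∀ (x : AlgebraicClosure K) (σ : AlgebraicClosure K →+* ℂ),
      ‖σ (aeval (pt hs x) c)‖ ≤ C * max 1 ‖σ x‖ ^ E := by
  induction c using MvPolynomial.induction_on with
  | C a =>
    obtain ⟨B, hB⟩ : ∃ B : ℝ, ∀ τ : K →+* ℂ, ‖τ a‖ ≤ B := by
      obtain ⟨B, hB⟩ := (Set.finite_range fun τ : K →+* ℂ => ‖τ a‖).bddAbove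
      exact ⟨B, fun τ => hB ⟨τ, rfl⟩⟩
    refine ⟨max 1 B, 0, le_max_left _ _, fun x σ => ?_⟩
    rw [pow_zero, mul_one, aeval_C]
    exact (hB (σ.comp (algebraMap K (AlgebraicClosure K)))).trans (le_max_right _ _)
  | add p q hp hq =>
    obtain ⟨C₁, E₁, h1, h2⟩ := hp
    obtain ⟨C₂, E₂, h3, h4⟩ := hq
    refine ⟨C₁ + C₂, max E₁ E₂, by linarith, fun x σ => ?_⟩
    rw [map_add, map_add, add_mul]
    refine (norm_add_le _ _).trans (add_le_add ((h2 x σ).trans ?_) ((h4 x σ).trans ?_))
    · gcongr
      · exact le_max_left _ _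
      · exact le_max_left _ _
    · gcongr
      · exact le_max_left _ _
      · exact le_max_right _ _
  | mul_X p j hp =>
    obtain ⟨C₁, E₁, h1, h2⟩ := hp
    refine ⟨C₁, E₁ + 1, h1, fun x σ => ?_⟩
    rw [map_mul, map_mul, norm_mul, pow_succ, ← mul_assoc]
    refine mul_le_mul (h2 x σ) ?_ (norm_nonneg _) (by positivity)
    rw [aeval_X, pt]
    split_ifs
    · exact le_max_right _ _
    · simp

lemma nat_mul_integral {n : ℕ} {x : AlgebraicClosure K} (hx : IsIntegral ℤ x) :
    IsIntegral ℤ ((n : AlgebraicClosure K) * x) := by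
  have h : IsIntegral ℤ ((n : ℤ) : AlgebraicClosure K) := isIntegral_algebraMap
  rw [Int.cast_natCast] at h
  exact h.mul hx

lemma exists_nat_mul_integral (a : AlgebraicClosure K) : ∃ n : ℕ, 0 < n ∧
    IsIntegral ℤ ((n : AlgebraicClosure K) * a) := by
  have h1 : IsAlgebraic ℚ a := by
    have : Algebra.IsAlgebraic ℚ (AlgebraicClosure K) := Algebra.IsAlgebraic.trans ℚ K _
    exact Algebra.IsAlgebraic.isAlgebraic a
  have h2 : IsAlgebraic ℤ a := (IsFractionRing.isAlgebraic_iff ℤ ℚ (AlgebraicClosure K)).2 h1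
  obtain ⟨y, hy0, hy⟩ := h2.exists_integral_multiple
  refine ⟨y.natAbs, Int.natAbs_pos.2 hy0, ?_⟩
  rw [zsmul_eq_mul] at hy
  rcases Int.natAbs_eq y with h | h
  · rw [h] at hy
    simpa using hy
  · rw [h] at hy
    have := hy.neg
    simpa using this

lemma integral_eval {s : ℕ} (hs : 0 < s) (c : MvPolynomial (Fin s) K) : ∃ n : ℕ, 0 < n ∧
    ∀ x : AlgebraicClosure K, IsIntegral ℤ x →
      IsIntegral ℤ ((n : AlgebraicClosure K) * aeval (pt hs x) c) := by
  induction c using MvPolynomial.induction_on with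
  | C a =>
    obtain ⟨n, hn, h⟩ := exists_nat_mul_integral (algebraMap K (AlgebraicClosure K) a)
    refine ⟨n, hn, fun x _ => ?_⟩
    rw [aeval_C]
    exact h
  | add p q hp hq =>
    obtain ⟨n₁, h1, h2⟩ := hp
    obtain ⟨n₂, h3, h4⟩ := hq
    refine ⟨n₁ * n₂, Nat.mul_pos h1 h3, fun x hx => ?_⟩
    have e : ((n₁ * n₂ : ℕ) : AlgebraicClosure K) * aeval (pt hs x) (p + q) =
        (n₂ : AlgebraicClosure K) * ((n₁ : AlgebraicClosure K) * aeval (pt hs x) p) +
        (n₁ : AlgebraicClosure K) * ((n₂ : AlgebraicClosure K) * aeval (pt hs x) q) := by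
      rw [map_add]
      push_cast
      ring
    rw [e]
    exact (nat_mul_integral (h2 x hx)).add (nat_mul_integral (h4 x hx))
  | mul_X p j hp =>
    obtain ⟨n₁, h1, h2⟩ := hp
    refine ⟨n₁, h1, fun x hx => ?_⟩
    rw [map_mul, ← mul_assoc]
    refine (h2 x hx).mul ?_
    rw [aeval_X, pt]
    split_ifs
    · exact hx
    · exact isIntegral_zero

/-- evaluation of a polynomial over `K[X_1, …, X_s]` at `(x, 0, …, 0)` -/
def sp {s : ℕ} (hs : 0 < s) (x : AlgebraicClosure K)
    (p : Polynomial (MvPolynomial (Fin s) K)) : Polynomial (AlgebraicClosure K) :=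
  p.map (aeval (pt hs x) : MvPolynomial (Fin s) K →ₐ[K] AlgebraicClosure K).toRingHom

lemma sp_monic {s : ℕ} (hs : 0 < s) (x : AlgebraicClosure K)
    {p : Polynomial (MvPolynomial (Fin s) K)} (hp : p.Monic) : (sp hs x p).Monic := hp.map _

lemma sp_natDegree {s : ℕ} (hs : 0 < s) (x : AlgebraicClosure K)
    {p : Polynomial (MvPolynomial (Fin s) K)} (hp : p.Monic) :
    (sp hs x p).natDegree = p.natDegree := hp.natDegree_map _

lemma sp_coeff {s : ℕ} (hs : 0 < s) (x : AlgebraicClosure K)
    (p : Polynomial (MvPolynomial (Fin s) K)) (k : ℕ) :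
    (sp hs x p).coeff k = aeval (pt hs x) (p.coeff k) := by
  rw [sp, Polynomial.coeff_map]
  rfl

lemma root_bound {s : ℕ} (hs : 0 < s) {p : Polynomial (MvPolynomial (Fin s) K)}
    (hp : p.Monic) : ∃ (C : ℝ) (E : ℕ), 1 ≤ C ∧ ∀ x y : AlgebraicClosure K,
      (sp hs x p).eval y = 0 → ∀ σ : AlgebraicClosure K →+* ℂ,
        ‖σ y‖ ≤ C * max 1 ‖σ x‖ ^ E := by
  choose C E hC hCE using fun k : ℕ => bound_eval hs (p.coeff k)
  set m := p.natDegree with hm
  set E' := (Finset.range m).sup E with hE'
  refine ⟨1 + ∑ k ∈ Finset.range m, C k, E', ?_, fun x y hxy σ => ?_⟩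
  · have : 0 ≤ ∑ k ∈ Finset.range m, C k :=
      Finset.sum_nonneg fun k _ => zero_le_one.trans (hC k)
    linarith
  · have hM1 : (1 : ℝ) ≤ max 1 ‖σ x‖ := le_max_left _ _
    have hME : (1 : ℝ) ≤ max 1 ‖σ x‖ ^ E' := one_le_pow₀ hM1
    have hsum0 : 0 ≤ ∑ k ∈ Finset.range m, C k :=
      Finset.sum_nonneg fun k _ => zero_le_one.trans (hC k)
    by_cases hy1 : ‖σ y‖ ≤ 1
    · calc ‖σ y‖ ≤ 1 := hy1
        _ ≤ (1 + ∑ k ∈ Finset.range m, C k) * max 1 ‖σ x‖ ^ E' :=
          one_le_mul_of_one_le_of_one_le (by linarith) hME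
    · push Not at hy1
      have hy0 : 0 < ‖σ y‖ := by linarith
      have h1 : (σ y) ^ m = -∑ k ∈ Finset.range m, σ ((sp hs x p).coeff k) * (σ y) ^ k := by
        have h2 := congrArg σ hxy
        rw [Polynomial.eval_eq_sum_range, sp_natDegree hs x hp, Finset.sum_range_succ, map_add,
          map_sum, map_zero] at h2
        have h3 : (sp hs x p).coeff m = 1 := by
          have := (sp_monic hs x hp).coeff_natDegree
          rwa [sp_natDegree hs x hp] at this
        rw [← hm, h3, one_mul, map_pow] at h2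
        simp only [map_mul, map_pow] at h2
        linear_combination h2
      have hm0 : m ≠ 0 := by
        intro h0
        rw [h0] at h1
        simp at h1
      have h4 : ‖σ y‖ ^ m ≤ (∑ k ∈ Finset.range m, C k) * max 1 ‖σ x‖ ^ E' *
          ‖σ y‖ ^ (m - 1) := by
        rw [← norm_pow, h1, norm_neg]
        refine (norm_sum_le _ _).trans ?_
        rw [Finset.sum_mul, Finset.sum_mul]
        refine Finset.sum_le_sum fun k hk => ?_
        rw [norm_mul, norm_pow, sp_coeff]
        refine mul_le_mul ((hCE k x σ).trans ?_) ?_ (by positivity) ?_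
        · exact mul_le_mul_of_nonneg_left (pow_le_pow_right₀ hM1 (Finset.le_sup hk))
            (zero_le_one.trans (hC k))
        · exact pow_le_pow_right₀ hy1.le (by have := Finset.mem_range.1 hk; omega)
        · exact mul_nonneg (zero_le_one.trans (hC k)) (by positivity)
      have h5 : ‖σ y‖ ^ m = ‖σ y‖ * ‖σ y‖ ^ (m - 1) := by
        rw [← pow_succ', Nat.sub_add_cancel (Nat.one_le_iff_ne_zero.2 hm0)]
      rw [h5] at h4
      have h6 := le_of_mul_le_mul_right h4 (pow_pos hy0 _)
      refine h6.trans ?_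
      have : 0 ≤ max 1 ‖σ x‖ ^ E' := by positivity
      nlinarith

lemma root_integral {s : ℕ} (hs : 0 < s) {p : Polynomial (MvPolynomial (Fin s) K)}
    (hp : p.Monic) : ∃ n : ℕ, 0 < n ∧ ∀ x y : AlgebraicClosure K, IsIntegral ℤ x →
      (sp hs x p).eval y = 0 → IsIntegral ℤ ((n : AlgebraicClosure K) * y) := by
  choose n hn hint using fun k : ℕ => integral_eval hs (p.coeff k)
  set m := p.natDegree with hm
  set n' := ∏ k ∈ Finset.range m, n k with hn'
  have hn'0 : 0 < n' := Finset.prod_pos fun k _ => hn k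
  refine ⟨n', hn'0, fun x y hx hxy => ?_⟩
  have hcoef : ∀ k, k < m → IsIntegral ℤ ((n' : AlgebraicClosure K) * (sp hs x p).coeff k) := by
    intro k hk
    rw [sp_coeff]
    have h1 : n' = (∏ j ∈ (Finset.range m).erase k, n j) * n k := by
      rw [hn', Finset.prod_erase_mul _ _ (Finset.mem_range.2 hk)]
    rw [h1]
    push_cast
    rw [mul_assoc]
    have := nat_mul_integral (n := ∏ j ∈ (Finset.range m).erase k, n j) (hint k x hx)
    push_cast at this
    exact this
  set q := (sp hs x p).scaleRoots (n' : AlgebraicClosure K) with hq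
  have hqm : q.Monic := (Polynomial.monic_scaleRoots_iff _).2 (sp_monic hs x hp)
  have hqr : q.eval ((n' : AlgebraicClosure K) * y) = 0 := by
    rw [hq, Polynomial.scaleRoots_eval_mul, hxy, mul_zero]
  have hqi : ∀ k, IsIntegral ℤ (q.coeff k) := by
    intro k
    rw [hq, Polynomial.coeff_scaleRoots, sp_natDegree hs x hp]
    rcases lt_trichotomy k m with hk | hk | hk
    · have e1 : m - k = (m - k - 1) + 1 := by omega
      rw [← hm, e1, pow_succ', ← mul_assoc, mul_comm ((sp hs x p).coeff k)]
      refine (hcoef k hk).mul ?_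
      have : IsIntegral ℤ ((n' : ℤ) : AlgebraicClosure K) := isIntegral_algebraMap
      rw [Int.cast_natCast] at this
      exact this.pow _
    · have h3 : (sp hs x p).coeff m = 1 := by
        have := (sp_monic hs x hp).coeff_natDegree
        rwa [sp_natDegree hs x hp] at this
      rw [hk, h3, ← hm, Nat.sub_self, pow_zero, mul_one]
      exact isIntegral_one
    · rw [Polynomial.coeff_eq_zero_of_natDegree_lt (by rw [sp_natDegree hs x hp]; exact hk),
        zero_mul]
      exact isIntegral_zero
  have hlift : q ∈ Polynomial.lifts (algebraMap (integralClosure ℤ (AlgebraicClosure K))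
      (AlgebraicClosure K)) := by
    rw [Polynomial.lifts_iff_coeff_lifts]
    intro k
    exact ⟨⟨q.coeff k, hqi k⟩, rfl⟩
  obtain ⟨q0, hq0, _, hq0m⟩ := Polynomial.lifts_and_natDegree_eq_and_monic hlift hqm
  have hB : IsIntegral (integralClosure ℤ (AlgebraicClosure K))
      ((n' : AlgebraicClosure K) * y) := by
    refine ⟨q0, hq0m, ?_⟩
    rw [← Polynomial.eval_map, hq0, hqr]
  exact isIntegral_trans (A := integralClosure ℤ (AlgebraicClosure K)) _ hB

lemma eval_mem {s : ℕ} (hs : 0 < s) (x : AlgebraicClosure K) (c : MvPolynomial (Fin s) K) :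
    aeval (pt hs x) c ∈ IntermediateField.adjoin K {x} := by
  induction c using MvPolynomial.induction_on with
  | C a =>
    rw [aeval_C]
    exact (IntermediateField.adjoin K {x}).algebraMap_mem a
  | add p q hp hq =>
    rw [map_add]
    exact add_mem hp hq
  | mul_X p j hp =>
    rw [map_mul, aeval_X, pt]
    refine mul_mem hp ?_
    split_ifs
    · exact IntermediateField.subset_adjoin _ _ rfl
    · exact zero_mem _

lemma finrank_simple_le {s : ℕ} (hs : 0 < s) {p : Polynomial (MvPolynomial (Fin s) K)}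
    (hp : p.Monic) (x y : AlgebraicClosure K) (hxy : (sp hs x p).eval y = 0) :
    Module.finrank (IntermediateField.adjoin K {x})
      (IntermediateField.adjoin (IntermediateField.adjoin K {x}) {y}) ≤ p.natDegree := by
  set F₀ := IntermediateField.adjoin K {x} with hF₀
  have hlift : sp hs x p ∈ Polynomial.lifts (algebraMap F₀ (AlgebraicClosure K)) := by
    rw [Polynomial.lifts_iff_coeff_lifts]
    intro k
    refine ⟨⟨(sp hs x p).coeff k, ?_⟩, rfl⟩
    rw [sp_coeff]
    exact eval_mem hs x _
  obtain ⟨q0, hq0, hq0d, hq0m⟩ :=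
    Polynomial.lifts_and_natDegree_eq_and_monic hlift (sp_monic hs x hp)
  have hroot : Polynomial.aeval y q0 = 0 := by
    rw [Polynomial.aeval_def, ← Polynomial.eval_map, hq0, hxy]
  have hint : IsIntegral F₀ y := ⟨q0, hq0m, hroot⟩
  rw [IntermediateField.adjoin.finrank hint]
  have h1 := minpoly.min F₀ y hq0m hroot
  have h2 := Polynomial.natDegree_le_natDegree h1
  rwa [hq0d, sp_natDegree hs x hp] at h2

lemma finrank_adjoin_le {s : ℕ} (hs : 0 < s)
    (p : Fin (N + 1) → Polynomial (MvPolynomial (Fin s) K)) (hp : ∀ i, (p i).Monic)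
    (x : AlgebraicClosure K) (y : Fin (N + 1) → AlgebraicClosure K)
    (hxy : ∀ i, (sp hs x (p i)).eval (y i) = 0) :
    Module.finrank K (IntermediateField.adjoin K (Set.range y)) ≤
      (∏ i, (p i).natDegree) * Module.finrank K (IntermediateField.adjoin K {x}) := by
  classical
  set F₀ := IntermediateField.adjoin K {x} with hF₀
  have key : ∀ S : Finset (Fin (N + 1)),
      Module.finrank F₀ (IntermediateField.adjoin F₀ (y '' (S : Set (Fin (N + 1))))) ≤
        ∏ i ∈ S, (p i).natDegree := by
    intro S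
    induction S using Finset.induction_on with
    | empty =>
      rw [Finset.coe_empty, Set.image_empty, IntermediateField.adjoin_empty,
        IntermediateField.finrank_bot, Finset.prod_empty]
    | insert i S hi ih =>
      rw [Finset.prod_insert hi, Finset.coe_insert, Set.image_insert_eq, Set.insert_eq,
        IntermediateField.adjoin_union]
      refine (IntermediateField.finrank_sup_le _ _).trans ?_
      exact Nat.mul_le_mul (finrank_simple_le hs (hp i) x (y i) (hxy i)) ih
  have h1 := key Finset.univ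
  rw [Finset.coe_univ, Set.image_univ] at h1
  have hfin : FiniteDimensional F₀ (IntermediateField.adjoin F₀ (Set.range y)) :=
    IntermediateField.finiteDimensional_adjoin fun z _ =>
      (Algebra.IsIntegral.isIntegral (R := F₀) z)
  have hfin0 : FiniteDimensional K F₀ :=
    IntermediateField.finiteDimensional_adjoin fun z _ =>
      (Algebra.IsIntegral.isIntegral (R := K) z)
  set E := (IntermediateField.adjoin F₀ (Set.range y)).restrictScalars K with hE
  have hle : IntermediateField.adjoin K (Set.range y) ≤ E := by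
    rw [IntermediateField.adjoin_le_iff]
    intro z hz
    exact IntermediateField.subset_adjoin F₀ _ hz
  have hEfin : FiniteDimensional K E :=
    FiniteDimensional.trans K F₀ (IntermediateField.adjoin F₀ (Set.range y))
  have h2 : Module.finrank K (IntermediateField.adjoin K (Set.range y)) ≤ Module.finrank K E :=
    Submodule.finrank_mono (R := K) (M := AlgebraicClosure K)
      (s := (IntermediateField.adjoin K (Set.range y)).toSubalgebra.toSubmodule)
      (t := E.toSubalgebra.toSubmodule) hle
  have h3 : Module.finrank K E = Module.finrank K F₀ *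
      Module.finrank F₀ (IntermediateField.adjoin F₀ (Set.range y)) :=
    (Module.finrank_mul_finrank K F₀ (IntermediateField.adjoin F₀ (Set.range y))).symm
  rw [h3] at h2
  refine h2.trans ?_
  rw [mul_comm]
  exact Nat.mul_le_mul_right _ h1

lemma aeval_mem_of_mem {ι : Type*} (L : IntermediateField K (AlgebraicClosure K))
    (v : ι → AlgebraicClosure K) (hv : ∀ i, v i ∈ L) (q : MvPolynomial ι K) :
    aeval v q ∈ L := by
  induction q using MvPolynomial.induction_on with
  | C a =>
    rw [aeval_C]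
    exact L.algebraMap_mem a
  | add p q hp hq =>
    rw [map_add]
    exact add_mem hp hq
  | mul_X p j hp =>
    rw [map_mul, aeval_X]
    exact mul_mem hp (hv j)

/-- the generators of the ideal of the affine variety -/
def gens {t : ℕ} (F : Fin t → MvPolynomial (Fin (N + 1)) K) (G : MvPolynomial (Fin (N + 1)) K)
    (i₀ : Fin (N + 1)) : Set (MvPolynomial (Option (Fin (N + 1))) K) :=
  Set.range (fun j => rename some (F j)) ∪ {rename some G * X none - 1, X (some i₀) - 1}

/-- the values of the variables at a point of the affine variety -/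
def vals (G : MvPolynomial (Fin (N + 1)) K) (y : Fin (N + 1) → AlgebraicClosure K) :
    Option (Fin (N + 1)) → AlgebraicClosure K
  | none => (aeval y G)⁻¹
  | some i => y i

lemma aeval_vals_rename (G H : MvPolynomial (Fin (N + 1)) K)
    (y : Fin (N + 1) → AlgebraicClosure K) :
    aeval (vals G y) (rename some H) = aeval y H := by
  rw [aeval_rename]
  rfl

lemma gens_vanish {t : ℕ} (F : Fin t → MvPolynomial (Fin (N + 1)) K)
    (G : MvPolynomial (Fin (N + 1)) K) (i₀ : Fin (N + 1))
    (y : Fin (N + 1) → AlgebraicClosure K) (h0 : y i₀ = 1) (hF : ∀ j, aeval y (F j) = 0)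
    (hG : aeval y G ≠ 0) : ∀ a ∈ Ideal.span (gens F G i₀), aeval (vals G y) a = 0 := by
  have h : Ideal.span (gens F G i₀) ≤ RingHom.ker (aeval (vals G y) :
      MvPolynomial (Option (Fin (N + 1))) K →ₐ[K] AlgebraicClosure K) := by
    rw [Ideal.span_le]
    rintro a (⟨j, rfl⟩ | rfl | rfl)
    · show aeval (vals G y) (rename some (F j)) = 0
      rw [aeval_vals_rename, hF]
    · show aeval (vals G y) (rename some G * X none - 1) = 0
      rw [map_sub, map_mul, aeval_vals_rename, aeval_X, map_one]
      show aeval y G * (aeval y G)⁻¹ - 1 = 0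
      rw [mul_inv_cancel₀ hG, sub_self]
    · show aeval (vals G y) (X (some i₀) - 1) = 0
      rw [map_sub, aeval_X, map_one]
      show y i₀ - 1 = 0
      rw [h0, sub_self]
  intro a ha
  exact h ha

lemma aeval_smul_homog {H : MvPolynomial (Fin (N + 1)) K} {e : ℕ} (hH : H.IsHomogeneous e)
    (c : AlgebraicClosure K) (y : Fin (N + 1) → AlgebraicClosure K) :
    aeval (fun i => c * y i) H = c ^ e * aeval y H := by
  rw [aeval_def, aeval_def, eval₂_eq', eval₂_eq', Finset.mul_sum]
  refine Finset.sum_congr rfl fun m hm => ?_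
  have h1 : ∑ i, m i = e := by
    have := hH (mem_support_iff.1 hm)
    rw [← this, Finsupp.weight_apply, Finsupp.sum_fintype _ _ (by simp)]
    simp
  simp only [mul_pow]
  rw [Finset.prod_mul_distrib, Finset.prod_pow_eq_pow_sum, h1]
  ring

theorem exists_points {t : ℕ} (F : Fin t → MvPolynomial (Fin (N + 1)) K)
    (G : MvPolynomial (Fin (N + 1)) K) (hF : ∀ j, ∃ e, (F j).IsHomogeneous e)
    (hG : ∃ e, G.IsHomogeneous e) (hinf : (locus F G).Infinite) :
    ∃ (i₀ : Fin (N + 1)) (e E n : ℕ) (C : ℝ)
      (Φ : (Fin (N + 1) → AlgebraicClosure K) → AlgebraicClosure K),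
      0 < e ∧ 0 < E ∧ 0 < n ∧ 1 ≤ C ∧
      ∀ x : AlgebraicClosure K, IsIntegral ℤ x →
        ∃ y : Fin (N + 1) → AlgebraicClosure K, y i₀ = 1 ∧
          (∀ j, aeval y (F j) = 0) ∧ aeval y G ≠ 0 ∧ Φ y = x ∧
          x ∈ IntermediateField.adjoin K (Set.range y) ∧
          Module.finrank K (IntermediateField.adjoin K (Set.range y)) ≤
            e * Module.finrank K (IntermediateField.adjoin K {x}) ∧
          (∀ i, IsIntegral ℤ ((n : AlgebraicClosure K) * y i)) ∧
          ∀ (σ : AlgebraicClosure K →+* ℂ) i, ‖σ (y i)‖ ≤ C * max 1 ‖σ x‖ ^ E := by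
  classical
  -- the index
  obtain ⟨i₀, hi₀⟩ : ∃ i₀ : Fin (N + 1), {P ∈ locus F G | P.rep i₀ ≠ 0}.Infinite := by
    by_contra hcon
    push Not at hcon
    apply hinf
    refine (Set.finite_iUnion hcon).subset ?_
    intro P hP
    rw [Set.mem_iUnion]
    exact ⟨pivot P, hP, pivot_spec P⟩
  -- the affine points
  set V : Set (Fin (N + 1) → AlgebraicClosure K) :=
    {y | y i₀ = 1 ∧ (∀ j, aeval y (F j) = 0) ∧ aeval y G ≠ 0} with hV
  have hVinf : V.Infinite := by
    set φ : Pts K N → (Fin (N + 1) → AlgebraicClosure K) := fun P i => (P.rep i₀)⁻¹ * P.rep i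
      with hφ
    have hmaps : ∀ P ∈ {P ∈ locus F G | P.rep i₀ ≠ 0}, φ P ∈ V := by
      rintro P ⟨⟨h1, h2⟩, h3⟩
      refine ⟨inv_mul_cancel₀ h3, fun j => ?_, ?_⟩
      · obtain ⟨e, he⟩ := hF j
        rw [hφ, aeval_smul_homog he, h1, mul_zero]
      · obtain ⟨e, he⟩ := hG
        rw [hφ, aeval_smul_homog he]
        exact mul_ne_zero (pow_ne_zero _ (inv_ne_zero h3)) h2
    have hinj : Set.InjOn φ {P ∈ locus F G | P.rep i₀ ≠ 0} := by
      rintro P ⟨_, hP⟩ Q ⟨_, hQ⟩ hPQ
      rw [← P.mk_rep, ← Q.mk_rep, Projectivization.mk_eq_mk_iff']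
      refine ⟨P.rep i₀ * (Q.rep i₀)⁻¹, ?_⟩
      funext i
      have := congrFun hPQ i
      simp only [hφ] at this
      rw [Pi.smul_apply, smul_eq_mul, mul_assoc, ← this, mul_inv_cancel_left₀ hP]
    exact (hi₀.image hinj).mono (by rintro _ ⟨P, hP, rfl⟩; exact hmaps P hP)
  obtain ⟨y₁, hy₁⟩ := hVinf.nonempty
  set I := Ideal.span (gens F G i₀) with hI
  let A := MvPolynomial (Option (Fin (N + 1))) K ⧸ I
  have hnt : Nontrivial A := by
    rw [Ideal.Quotient.nontrivial_iff]
    intro htop
    have : (1 : MvPolynomial (Option (Fin (N + 1))) K) ∈ I := by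
      rw [htop]
      exact Submodule.mem_top
    have h1 := gens_vanish F G i₀ y₁ hy₁.1 hy₁.2.1 hy₁.2.2 1 this
    rw [map_one] at h1
    exact one_ne_zero h1
  obtain ⟨s, g, hginj, hgint⟩ := exists_integral_inj_algHom_of_fg K A
  -- monic polynomials
  have hmon : ∀ i : Fin (N + 1), ∃ p : Polynomial (MvPolynomial (Fin s) K), p.Monic ∧
      p.eval₂ (g : MvPolynomial (Fin s) K →+* A) (Ideal.Quotient.mk I (X (some i))) = 0 :=
    fun i => hgint _
  choose p hpm hp0 using hmon
  -- values: every point of the affine variety restricts to a root of the `p i`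
  have hs : 0 < s := by
    by_contra hs0
    have hs1 : s = 0 := by omega
    subst hs1
    apply hVinf
    -- the coordinates lie in finite sets
    have hroot : ∀ y ∈ V, ∀ i, y i ∈ ((p i).map
        (aeval (fun _ : Fin 0 => (0 : AlgebraicClosure K)) : MvPolynomial (Fin 0) K →ₐ[K]
          AlgebraicClosure K).toRingHom).roots.toFinset := by
      rintro y ⟨hy1, hy2, hy3⟩ i
      rw [Multiset.mem_toFinset, Polynomial.mem_roots ((hpm i).map _).ne_zero]
      let h : A →+* AlgebraicClosure K := Ideal.Quotient.lift I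
        (aeval (vals G y) : MvPolynomial (Option (Fin (N + 1))) K →ₐ[K]
          AlgebraicClosure K).toRingHom (gens_vanish F G i₀ y hy1 hy2 hy3)
      have e1 : h.comp (g : MvPolynomial (Fin 0) K →+* A) =
          (aeval (fun _ : Fin 0 => (0 : AlgebraicClosure K)) : MvPolynomial (Fin 0) K →ₐ[K]
          AlgebraicClosure K).toRingHom := by
        refine MvPolynomial.ringHom_ext (fun a => ?_) (fun j => j.elim0)
        have : g (C a) = Ideal.Quotient.mk I (C a) := g.commutes a
        show h (g (C a)) = _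
        rw [this]
        show aeval (vals G y) (C a) = aeval _ (C a)
        rw [aeval_C, aeval_C]
      have h2 := congrArg h (hp0 i)
      rw [Polynomial.hom_eval₂, e1, map_zero] at h2
      rw [Polynomial.IsRoot.def, Polynomial.eval_map]
      have h3 : h (Ideal.Quotient.mk I (X (some i))) = y i := by
        show aeval (vals G y) (X (some i)) = y i
        rw [aeval_X]
        rfl
      rw [h3] at h2
      exact h2
    refine (Set.Finite.pi' fun i : Fin (N + 1) => (((p i).map
        (aeval (fun _ : Fin 0 => (0 : AlgebraicClosure K)) : MvPolynomial (Fin 0) K →ₐ[K]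
          AlgebraicClosure K).toRingHom).roots.toFinset.finite_toSet)).subset ?_
    intro y hy i
    exact hroot y hy i
  -- bounds
  choose C E hC hCE using fun i => root_bound hs (hpm i)
  choose n hn hint using fun i => root_integral hs (hpm i)
  obtain ⟨q, hq⟩ := Ideal.Quotient.mk_surjective (g (X ⟨0, hs⟩))
  refine ⟨i₀, ∏ i, (p i).natDegree + 1, Finset.univ.sup E + 1, ∏ i, n i, ∑ i, C i,
    fun y => aeval (vals G y) q, Nat.succ_pos _, Nat.succ_pos _,
    Finset.prod_pos fun i _ => hn i, ?_, fun x hx => ?_⟩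
  · calc (1 : ℝ) ≤ C 0 := hC 0
      _ ≤ _ := Finset.single_le_sum (f := C) (fun i _ => zero_le_one.trans (hC i))
        (Finset.mem_univ 0)
  -- the point over `x`
  obtain ⟨h, hh⟩ := exists_extension (g : MvPolynomial (Fin s) K →+* A) hginj hgint
    (aeval (pt hs x) : MvPolynomial (Fin s) K →ₐ[K] AlgebraicClosure K).toRingHom
  have hhg : ∀ r, h (g r) = aeval (pt hs x) r := fun r => RingHom.congr_fun hh r
  set y : Fin (N + 1) → AlgebraicClosure K := fun i => h (Ideal.Quotient.mk I (X (some i)))
    with hy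
  have hcomp : ∀ r : MvPolynomial (Option (Fin (N + 1))) K, h (Ideal.Quotient.mk I r) =
      aeval (fun o => h (Ideal.Quotient.mk I (X o))) r := by
    intro r
    have : h.comp (Ideal.Quotient.mk I) =
        (aeval (fun o => h (Ideal.Quotient.mk I (X o))) : MvPolynomial (Option (Fin (N + 1))) K
          →ₐ[K] AlgebraicClosure K).toRingHom := by
      refine MvPolynomial.ringHom_ext (fun a => ?_) (fun o => ?_)
      · have e1 : g (MvPolynomial.C a) = Ideal.Quotient.mk I (MvPolynomial.C a) := g.commutes a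
        show h (Ideal.Quotient.mk I (MvPolynomial.C a)) = aeval _ (MvPolynomial.C a)
        rw [← e1, hhg, aeval_C, aeval_C]
      · show h (Ideal.Quotient.mk I (X o)) = aeval _ (X o)
        rw [aeval_X]
    exact RingHom.congr_fun this r
  have hmem : ∀ r ∈ gens F G i₀, aeval (fun o => h (Ideal.Quotient.mk I (X o))) r = 0 := by
    intro r hr
    rw [← hcomp, Ideal.Quotient.eq_zero_iff_mem.2 (Ideal.subset_span hr), map_zero]
  have hren : ∀ H : MvPolynomial (Fin (N + 1)) K,
      aeval (fun o => h (Ideal.Quotient.mk I (X o))) (rename some H) = aeval y H := by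
    intro H
    rw [aeval_rename]
    rfl
  have hy0 : y i₀ = 1 := by
    have := hmem (X (some i₀) - 1) (Or.inr (Or.inr rfl))
    rw [map_sub, aeval_X, map_one, sub_eq_zero] at this
    exact this
  have hyF : ∀ j, aeval y (F j) = 0 := by
    intro j
    rw [← hren]
    exact hmem _ (Or.inl ⟨j, rfl⟩)
  have hyG' : aeval y G * h (Ideal.Quotient.mk I (X none)) = 1 := by
    have := hmem (rename some G * X none - 1) (Or.inr (Or.inl rfl))
    rw [map_sub, map_mul, hren, aeval_X, map_one, sub_eq_zero] at this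
    exact this
  have hyG : aeval y G ≠ 0 := left_ne_zero_of_mul_eq_one hyG'
  have hvals : (fun o => h (Ideal.Quotient.mk I (X o))) = vals G y := by
    funext o
    match o with
    | none => exact eq_inv_of_mul_eq_one_right hyG'
    | some i => rfl
  have hΦ : aeval (vals G y) q = x := by
    rw [← hvals, ← hcomp, hq, hhg, aeval_X, pt, if_pos rfl]
  have hroot : ∀ i, (sp hs x (p i)).eval (y i) = 0 := by
    intro i
    have h2 := congrArg h (hp0 i)
    rw [Polynomial.hom_eval₂, hh, map_zero] at h2
    rw [sp, Polynomial.eval_map]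
    exact h2
  refine ⟨y, hy0, hyF, hyG, hΦ, ?_, ?_, fun i => ?_, fun σ i => ?_⟩
  · rw [← hΦ]
    have hall : ∀ o, vals G y o ∈ IntermediateField.adjoin K (Set.range y) := by
      have hyi : ∀ i, y i ∈ IntermediateField.adjoin K (Set.range y) := fun i =>
        IntermediateField.subset_adjoin _ _ ⟨i, rfl⟩
      intro o
      match o with
      | some i => exact hyi i
      | none =>
        exact inv_mem (aeval_mem_of_mem _ y hyi G)
    exact aeval_mem_of_mem _ _ hall q
  · refine (finrank_adjoin_le hs p hpm x y hroot).trans ?_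
    exact Nat.mul_le_mul_right _ (Nat.le_succ _)
  · have h1 : ∏ i, n i = (∏ j ∈ Finset.univ.erase i, n j) * n i := by
      rw [Finset.prod_erase_mul _ _ (Finset.mem_univ i)]
    rw [h1]
    have := nat_mul_integral (n := ∏ j ∈ Finset.univ.erase i, n j) (hint i x (y i) hx (hroot i))
    push_cast at this ⊢
    rw [mul_assoc]
    exact this
  · refine (hCE i x (y i) (hroot i) σ).trans ?_
    have hM1 : (1 : ℝ) ≤ max 1 ‖σ x‖ := le_max_left _ _
    refine mul_le_mul (Finset.single_le_sum (f := C) (fun i _ => zero_le_one.trans (hC i))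
      (Finset.mem_univ i)) (pow_le_pow_right₀ hM1 ?_) (by positivity) ?_
    · exact (Finset.le_sup (Finset.mem_univ i)).trans (Nat.le_succ _)
    · exact Finset.sum_nonneg fun i _ => zero_le_one.trans (hC i)

end VX
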