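import Pool.Agent.VX.Eis
import Pool.Agent.VX.Noeth
import Pool.Agent.VX.Ht

/-! Lower bound for the number of all points. -/

open NumberField MvPolynomial

noncomputable section
namespace VX

universe u

variable {K : Type u} [Field K] [NumberField K] {N : ℕ}

omit [NumberField K] in
/-- value of a form at a multiple of a point -/
theorem tot_aeval_smul {A : Type*} [CommRing A] [Algebra K A] {σ : Type*}
    (F : MvPolynomial σ K) (e : ℕ) (hF : F.IsHomogeneous e) (c : A) (y : σ → A) :
    aeval (fun i => c * y i) F = c ^ e * aeval y F := by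
  rw [aeval_def, aeval_def, eval₂_eq, eval₂_eq, Finset.mul_sum]
  refine Finset.sum_congr rfl fun d hd => ?_
  have hd' : d.degree = e := by
    by_contra h
    exact (mem_support_iff.1 hd) (hF.coeff_eq_zero h)
  have : ∏ i ∈ d.support, (c * y i) ^ d i = c ^ e * ∏ i ∈ d.support, y i ^ d i := by
    simp_rw [mul_pow]
    rw [Finset.prod_mul_distrib, Finset.prod_pow_eq_pow_sum, ← hd']
    rfl
  rw [this]
  ring

theorem tot_rep {t : ℕ} (F : Fin t → MvPolynomial (Fin (N + 1)) K)
    (G : MvPolynomial (Fin (N + 1)) K) (hF : ∀ j, ∃ e, (F j).IsHomogeneous e)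
    (hG : ∃ e, G.IsHomogeneous e) (y : Fin (N + 1) → AlgebraicClosure K) (hy : y ≠ 0)
    (h1 : ∀ j, aeval y (F j) = 0) (h2 : aeval y G ≠ 0) :
    Projectivization.mk (AlgebraicClosure K) y hy ∈ locus F G := by
  obtain ⟨a, ha⟩ := Projectivization.exists_smul_eq_mk_rep (AlgebraicClosure K) y hy
  have hrep : (Projectivization.mk (AlgebraicClosure K) y hy).rep
      = fun i => (a : AlgebraicClosure K) * y i := by
    rw [← ha]; rfl
  refine ⟨fun j => ?_, ?_⟩
  · obtain ⟨e, he⟩ := hF j
    rw [hrep, tot_aeval_smul _ e he, h1 j, mul_zero]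
  · obtain ⟨e, he⟩ := hG
    rw [hrep, tot_aeval_smul _ e he]
    exact mul_ne_zero (pow_ne_zero _ a.ne_zero) h2

/-- two monic irreducible integral polynomials with a common root are equal -/
theorem tot_poly_eq (f g : Polynomial ℤ) (hf : f.Monic) (hfi : Irreducible f) (hg : g.Monic)
    (hgi : Irreducible g) (x : AlgebraicClosure K) (h1 : Polynomial.aeval x f = 0)
    (h2 : Polynomial.aeval x g = 0) : f = g := by
  have key : ∀ h : Polynomial ℤ, h.Monic → Irreducible h → Polynomial.aeval x h = 0 →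
      h.map (algebraMap ℤ ℚ) = minpoly ℚ x := by
    intro h hh hi hx
    apply minpoly.eq_of_irreducible_of_monic
    · exact (hh.irreducible_iff_irreducible_map_fraction_map (K := ℚ)).1 hi
    · rw [Polynomial.aeval_map_algebraMap]; exact hx
    · exact hh.map _
  have := (key f hf hfi h1).trans (key g hg hgi h2).symm
  exact Polynomial.map_injective (algebraMap ℤ ℚ) (RingHom.injective_int _) this

theorem total_ge {t : ℕ} (F : Fin t → MvPolynomial (Fin (N + 1)) K)
    (G : MvPolynomial (Fin (N + 1)) K) (hF : ∀ j, ∃ e, (F j).IsHomogeneous e)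
    (hG : ∃ e, G.IsHomogeneous e) (hinf : (locus F G).Infinite) :
    ∃ (B : ℝ) (e : ℕ), 0 < B ∧ ∀ d : ℕ, e ≤ d → ∃ T₀ : ℝ, ∀ T : ℝ, T₀ ≤ T →
      ∃ S : Finset (Pts K N), (S : Set (Pts K N)) ⊆ ptsLE (locus F G) d T ∧
        Real.exp (B * d ^ 2 * T) ≤ S.card := by
  classical
  obtain ⟨i₀, e, E, n, C, Φ, he, hE, hn, hC, hpt⟩ := exists_points F G hF hG hinf
  set k : ℝ := (Module.finrank ℚ K : ℝ) with hk
  have hkpos : 0 < k := by
    rw [hk]; exact_mod_cast Module.finrank_pos
  have heR : (0 : ℝ) < e := by exact_mod_cast he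
  have hER : (0 : ℝ) < E := by exact_mod_cast hE
  have hnR : (1 : ℝ) ≤ n := by exact_mod_cast hn
  set c₀ : ℝ := Real.log (n * C) with hc₀
  have hc₀' : 0 ≤ c₀ := Real.log_nonneg (by nlinarith)
  refine ⟨1 / (16 * e ^ 2 * k * E), e, by positivity, fun d hd => ?_⟩
  set m : ℕ := d / e with hm
  have hm1 : 1 ≤ m := (Nat.one_le_div_iff he).2 hd
  have hmR : (1 : ℝ) ≤ m := by exact_mod_cast hm1
  have hme : m * e ≤ d := Nat.div_mul_le_self d e
  have hmd : (d : ℝ) ≤ 2 * e * m := by
    have h1 : d < (m + 1) * e := by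
      have := Nat.lt_div_mul_add he (a := d)
      rw [← hm] at this
      nlinarith
    have h2 : (d : ℝ) < (m + 1) * e := by exact_mod_cast h1
    nlinarith
  obtain ⟨H₀, hpoly⟩ := many_polys m hm1
  refine ⟨max (2 * k * c₀) (k * (c₀ + E * |H₀|)), fun T hT => ?_⟩
  have hT1 : 2 * k * c₀ ≤ T := (le_max_left _ _).trans hT
  have hT2 : k * (c₀ + E * |H₀|) ≤ T := (le_max_right _ _).trans hT
  set H : ℝ := m * (T / k - c₀) / E with hH
  have hTk : c₀ + E * |H₀| ≤ T / k := by
    rw [le_div_iff₀ hkpos]; linarith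
  have hH0 : H₀ ≤ H := by
    rw [hH, le_div_iff₀ hER]
    have h1 : E * |H₀| ≤ T / k - c₀ := by linarith
    have h2 : 0 ≤ T / k - c₀ := le_trans (by positivity) h1
    have h3 : H₀ ≤ |H₀| := le_abs_self _
    nlinarith
  obtain ⟨S, hScard, hS⟩ := hpoly H hH0
  -- roots
  have hroot : ∀ f : Polynomial ℤ, f.Monic → Irreducible f → 1 ≤ f.natDegree →
      ∃ x : AlgebraicClosure K, Polynomial.aeval x f = 0 := by
    intro f hf _ hdeg
    have := IsAlgClosed.exists_aeval_eq_zero_of_injective (AlgebraicClosure K)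
      (R := ℤ) (RingHom.injective_int _) f
      (by
        rw [Polynomial.degree_eq_natDegree hf.ne_zero]
        intro h
        have : f.natDegree = 0 := by exact_mod_cast h
        omega)
    exact this
  have hex : ∀ f : Polynomial ℤ, ∃ (x : AlgebraicClosure K) (y : Fin (N + 1) → AlgebraicClosure K),
      f ∈ S → (Polynomial.aeval x f = 0 ∧ y i₀ = 1 ∧
          (∀ j, aeval y (F j) = 0) ∧ aeval y G ≠ 0 ∧ Φ y = x ∧
          x ∈ IntermediateField.adjoin K (Set.range y) ∧
          Module.finrank K (IntermediateField.adjoin K (Set.range y)) ≤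
            e * Module.finrank K (IntermediateField.adjoin K {x}) ∧
          (∀ i, IsIntegral ℤ ((n : AlgebraicClosure K) * y i)) ∧
          ∀ (σ : AlgebraicClosure K →+* ℂ) i, ‖σ (y i)‖ ≤ C * max 1 ‖σ x‖ ^ E) := by
    intro f
    by_cases hfS : f ∈ S
    · obtain ⟨hf1, hf2, hf3, _⟩ := hS f hfS
      obtain ⟨x, hx⟩ := hroot f hf1 hf3 (by omega)
      have hxi : IsIntegral ℤ x := ⟨f, hf1, by rwa [Polynomial.aeval_def] at hx⟩
      obtain ⟨y, hy⟩ := hpt x hxi
      exact ⟨x, y, fun _ => ⟨hx, hy⟩⟩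
    · exact ⟨0, 0, fun h => absurd h hfS⟩
  choose x y hxy using hex
  have hyne : ∀ f ∈ S, y f ≠ 0 := by
    intro f hf h0
    have := (hxy f hf).2.1
    rw [h0] at this
    exact zero_ne_one this
  let P : Polynomial ℤ → Pts K N := fun f =>
    if h : y f ≠ 0 then Projectivization.mk (AlgebraicClosure K) (y f) h
    else Projectivization.mk (AlgebraicClosure K) (fun _ => 1)
      (fun h => one_ne_zero (congrFun h i₀))
  have hP : ∀ f (hf : f ∈ S), P f = Projectivization.mk (AlgebraicClosure K) (y f) (hyne f hf) := by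
    intro f hf
    simp only [P]
    rw [dif_pos (hyne f hf)]
  have hinj : Set.InjOn P (S : Set (Polynomial ℤ)) := by
    intro f hf g hg hfg
    rw [hP f hf, hP g hg, Projectivization.mk_eq_mk_iff'] at hfg
    obtain ⟨a, ha⟩ := hfg
    have hyy : y f = y g := by
      have h1 := congrFun ha i₀
      have hf1 := (hxy f hf).2.1
      have hg1 := (hxy g hg).2.1
      simp only [Pi.smul_apply, smul_eq_mul, hf1, hg1, mul_one] at h1
      rw [h1, one_smul] at ha
      exact ha.symm
    have hxx : x f = x g := by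
      rw [← (hxy f hf).2.2.2.2.1, ← (hxy g hg).2.2.2.2.1, hyy]
    have h1 := (hxy f hf).1
    have h2 := (hxy g hg).1
    rw [← hxx] at h2
    exact tot_poly_eq f g (hS f hf).1 (hS f hf).2.2.1 (hS g hg).1 (hS g hg).2.2.1 _ h1 h2
  refine ⟨S.image P, ?_, ?_⟩
  · intro Q hQ
    rw [Finset.coe_image] at hQ
    obtain ⟨f, hf, rfl⟩ := hQ
    have hf' : f ∈ S := hf
    obtain ⟨hf1, hf2, hf3, hf4⟩ := hS f hf'
    obtain ⟨g1, g2, g3, g4, g5, g6, g7, g8, g9⟩ := hxy f hf'
    rw [hP f hf']
    refine ⟨tot_rep F G hF hG _ _ g3 g4, ?_, ?_⟩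
    · rw [resField_mk _ i₀ g2]
      have hdeg : Module.finrank K (IntermediateField.adjoin K {x f}) ≤ m := by
        have hxi : IsIntegral K (x f) :=
          Algebra.IsIntegral.isIntegral (R := K) (x f)
        rw [IntermediateField.adjoin.finrank hxi]
        have hdvd : minpoly K (x f) ∣ f.map (algebraMap ℤ K) := by
          apply minpoly.dvd
          rw [Polynomial.aeval_map_algebraMap]; exact g1
        calc (minpoly K (x f)).natDegree ≤ (f.map (algebraMap ℤ K)).natDegree :=
              Polynomial.natDegree_le_of_dvd hdvd (hf1.map _).ne_zero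
          _ = f.natDegree := hf1.natDegree_map _
          _ = m := hf2
          _ ≤ m := le_refl _
      calc Module.finrank K (IntermediateField.adjoin K (Set.range (y f)))
          ≤ e * Module.finrank K (IntermediateField.adjoin K {x f}) := g7
        _ ≤ e * m := Nat.mul_le_mul_left _ hdeg
        _ ≤ d := by rw [mul_comm]; exact hme
    · have := height_mk_le (y f) i₀ g2 (hyne f hf') n E hn C hC (x f) g6 g8 g9 f hf1 hf3 g1 H hf4
      refine this.trans (le_of_eq ?_)
      rw [hf2, ← hk, ← hc₀, hH]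
      have hm0 : (m : ℝ) ≠ 0 := by positivity
      field_simp
      ring
  · rw [Finset.card_image_of_injOn hinj]
    refine le_trans ?_ hScard
    apply Real.exp_le_exp.2
    rw [hH]
    have h1 : T / (2 * k) ≤ T / k - c₀ := by
      have : T / k - T / (2 * k) = T / (2 * k) := by field_simp; ring
      have h2 : c₀ ≤ T / (2 * k) := by
        rw [le_div_iff₀ (by positivity)]; linarith
      linarith
    have hTnn : 0 ≤ T := le_trans (by positivity) hT1
    have hd2 : (d : ℝ) ^ 2 ≤ (2 * e * m) ^ 2 := by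
      apply pow_le_pow_left₀ (by positivity) hmd
    calc 1 / (16 * (e : ℝ) ^ 2 * k * E) * d ^ 2 * T
        ≤ 1 / (16 * (e : ℝ) ^ 2 * k * E) * (2 * e * m) ^ 2 * T := by gcongr
      _ = m * (m * (T / (2 * k)) / E) / 2 := by field_simp; ring
      _ ≤ m * (m * (T / k - c₀) / E) / 2 := by gcongr

end VX
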