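import Pool.Agent.VX.Exc
import Pool.Agent.VX.Total
import Pool.Agent.VX.North

/-! The main theorem. -/

open NumberField MvPolynomial

noncomputable section
namespace VX

universe u

variable {K : Type u} [Field K] [NumberField K] {N : ℕ}

theorem main_theorem {t : ℕ} (F : Fin t → MvPolynomial (Fin (N + 1)) K)
    (G : MvPolynomial (Fin (N + 1)) K) (hF : ∀ j, ∃ e, (F j).IsHomogeneous e)
    (hG : ∃ e, G.IsHomogeneous e) (hinf : (locus F G).Infinite) (X : Set (Pts K N))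
    (hX : locus F G ⊆ X) (r : ℕ) (hr : 1 ≤ r) :
    ∃ (A B : ℝ) (e : ℕ), 0 < A ∧ 0 < B ∧ ∀ d : ℕ, e ≤ d → ∃ T₀ : ℝ, ∀ T : ℝ, T₀ ≤ T →
      (ptsLE X d T).Finite ∧ Real.exp (B * d ^ 2 * T) ≤ (ptsLE X d T).ncard ∧
      ∀ lam : ℝ, 1 ≤ lam → ((excLE X d T lam).ncard : ℝ) ≤
        ((ptsLE X d T).ncard : ℝ) ^ (A * lam * (d : ℝ) ^ ((1 : ℝ) / r) / d) := by
  obtain ⟨A, hA, hexc⟩ := card_exc K N r hr
  obtain ⟨B, e, hB, htot⟩ := total_ge F G hF hG hinf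
  refine ⟨A / B, B, e + 1, div_pos hA hB, hB, fun d hd => ?_⟩
  obtain ⟨T₁, h1⟩ := hexc d (by omega)
  obtain ⟨T₂, h2⟩ := htot d (by omega)
  refine ⟨max T₁ T₂, fun T hT => ?_⟩
  have hfin := ptsLE_finite X d T
  obtain ⟨S, hS, hScard⟩ := h2 T ((le_max_right _ _).trans hT)
  have hSX : (S : Set (Pts K N)) ⊆ ptsLE X d T := fun P hP =>
    ⟨hX (hS hP).1, (hS hP).2⟩
  have hM : Real.exp (B * d ^ 2 * T) ≤ (ptsLE X d T).ncard := by
    refine hScard.trans ?_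
    have := Set.ncard_le_ncard hSX hfin
    rw [Set.ncard_coe_finset] at this
    exact_mod_cast this
  refine ⟨hfin, hM, fun lam hlam => ?_⟩
  obtain ⟨hf, hc⟩ := h1 T ((le_max_left _ _).trans hT) lam hlam
  have hsub : excLE X d T lam ⊆ excLE Set.univ d T lam := by
    rintro P ⟨⟨_, hP2⟩, hP3⟩
    exact ⟨⟨Set.mem_univ _, hP2⟩, hP3⟩
  have hle : ((excLE X d T lam).ncard : ℝ) ≤
      Real.exp (A * lam * (d : ℝ) ^ (1 + (1 : ℝ) / r) * T) := by
    refine le_trans ?_ hc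
    exact_mod_cast Set.ncard_le_ncard hsub hf
  have hd0 : (0 : ℝ) < d := by exact_mod_cast (by omega : 0 < d)
  have hexp0 : 0 ≤ A / B * lam * (d : ℝ) ^ ((1 : ℝ) / r) / d := by positivity
  calc ((excLE X d T lam).ncard : ℝ)
      ≤ Real.exp (A * lam * (d : ℝ) ^ (1 + (1 : ℝ) / r) * T) := hle
    _ = (Real.exp (B * d ^ 2 * T)) ^ (A / B * lam * (d : ℝ) ^ ((1 : ℝ) / r) / d) := by
        rw [← Real.exp_mul]
        congr 1
        rw [Real.rpow_add hd0, Real.rpow_one]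
        field_simp
    _ ≤ _ := Real.rpow_le_rpow (Real.exp_pos _).le hM hexp0

end VX
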