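import Mathlib

/-!
Vojta's inequality for 100 percent of the points of bounded degree on every variety
(MP_9b9442_nt). Definitions; see BLUEPRINT.md.
-/

open scoped LinearAlgebra.Projectivization
open MvPolynomial NumberField

noncomputable section
namespace VX

universe u

variable {K : Type u} [Field K] [NumberField K] {N : ℕ}

/-- the points of projective space over an algebraic closure of `K` -/
abbrev Pts (K : Type u) [Field K] (N : ℕ) : Type u :=
  ℙ (AlgebraicClosure K) (Fin (N + 1) → AlgebraicClosure K)

/-- the residue field `K(P)`, generated by the quotients of the coordinates -/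
def resField (P : Pts K N) : IntermediateField K (AlgebraicClosure K) :=
  IntermediateField.adjoin K
    (Set.range fun q : Fin (N + 1) × Fin (N + 1) => P.rep q.1 / P.rep q.2)

/-- the index of a nonzero coordinate -/
def pivot (P : Pts K N) : Fin (N + 1) :=
  Classical.choose (Function.ne_iff.1 P.rep_nonzero)

theorem pivot_spec (P : Pts K N) : P.rep (pivot P) ≠ 0 :=
  Classical.choose_spec (Function.ne_iff.1 P.rep_nonzero)

/-- homogeneous coordinates of `P` in its residue field -/
def coords (P : Pts K N) : Fin (N + 1) → resField P := fun i =>
  ⟨P.rep i / P.rep (pivot P), IntermediateField.subset_adjoin _ _ ⟨(i, pivot P), rfl⟩⟩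

instance finDimResField (P : Pts K N) : FiniteDimensional K (resField P) :=
  IntermediateField.finiteDimensional_adjoin fun x _ =>
    (Algebra.IsIntegral.isIntegral (R := K) x)

/-- an intermediate field of finite degree is a number field -/
theorem numberField_of_finite (L : IntermediateField K (AlgebraicClosure K))
    [FiniteDimensional K L] : NumberField L where
  to_charZero := inferInstance
  to_finiteDimensional := FiniteDimensional.trans ℚ K L

instance numberFieldResField (P : Pts K N) : NumberField (resField P) :=
  numberField_of_finite _

/-- the logarithmic height of `P`, relative to `K` -/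
def height (P : Pts K N) : ℝ :=
  Height.logHeight (coords P) / Module.finrank K (resField P)

/-- the logarithmic discriminant `d_K(P)` -/
def logDisc (P : Pts K N) : ℝ :=
  Real.log |(discr (resField P) : ℝ)| / Module.finrank K (resField P) -
    Real.log |(discr K : ℝ)|

/-- the locally closed set `F_1 = … = F_t = 0`, `G ≠ 0` -/
def locus {t : ℕ} (F : Fin t → MvPolynomial (Fin (N + 1)) K)
    (G : MvPolynomial (Fin (N + 1)) K) : Set (Pts K N) :=
  {P | (∀ j, aeval P.rep (F j) = 0) ∧ aeval P.rep G ≠ 0}

/-- the points of degree at most `d` and height at most `T` -/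
def ptsLE (X : Set (Pts K N)) (d : ℕ) (T : ℝ) : Set (Pts K N) :=
  {P | P ∈ X ∧ Module.finrank K (resField P) ≤ d ∧ height P ≤ T}

/-- those of them with `d_K(P) ≤ lam * T` -/
def excLE (X : Set (Pts K N)) (d : ℕ) (T lam : ℝ) : Set (Pts K N) :=
  {P | P ∈ ptsLE X d T ∧ logDisc P ≤ lam * T}

end VX
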