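import Pool.Agent.VX.Defs

/-! Many irreducible monic polynomials of small Mahler measure. -/

open Polynomial

noncomputable section
namespace VX

/-- the lower part of the polynomials -/
private def eLow {m : ℕ} (c : Fin m → ℤ) : ℤ[X] := ∑ i : Fin m, C (c i) * X ^ (i : ℕ)

/-- the polynomials -/
private def ePol {m : ℕ} (c : Fin m → ℤ) : ℤ[X] := X ^ m + eLow c

private lemma eLow_degree {m : ℕ} (c : Fin m → ℤ) : (eLow c).degree < m :=
  degree_sum_fin_lt c

private lemma eLow_coeff {m : ℕ} (c : Fin m → ℤ) (k : Fin m) : (eLow c).coeff (k : ℕ) = c k := by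
  unfold eLow
  rw [finsetSum_coeff, Finset.sum_eq_single k]
  · simp
  · intro b _ hb
    rw [coeff_C_mul_X_pow, if_neg]
    intro h
    exact hb (Fin.ext h.symm)
  · intro h
    exact absurd (Finset.mem_univ k) h

private lemma ePol_monic {m : ℕ} (c : Fin m → ℤ) : (ePol c).Monic :=
  monic_X_pow_add (eLow_degree c)

private lemma ePol_natDegree {m : ℕ} (c : Fin m → ℤ) : (ePol c).natDegree = m := by
  have h : (ePol c).degree = m := by
    unfold ePol
    rw [degree_add_eq_left_of_degree_lt]
    · exact degree_X_pow m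
    · rw [degree_X_pow]
      exact eLow_degree c
  exact natDegree_eq_of_degree_eq_some h

private lemma ePol_coeff {m : ℕ} (c : Fin m → ℤ) (k : Fin m) : (ePol c).coeff (k : ℕ) = c k := by
  unfold ePol
  rw [coeff_add, coeff_X_pow, if_neg (ne_of_lt k.2), zero_add, eLow_coeff]

private lemma ePol_irred {m : ℕ} (hm : 1 ≤ m) (c : Fin m → ℤ) (h2 : ∀ i, (2 : ℤ) ∣ c i)
    (h4 : ¬ (4 : ℤ) ∣ c ⟨0, hm⟩) : Irreducible (ePol c) := by
  have hP : (Ideal.span {(2 : ℤ)}).IsPrime :=
    (Ideal.span_singleton_prime (by norm_num)).2 Int.prime_two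
  have hdeg : (ePol c).degree = m := by
    rw [degree_eq_natDegree (ePol_monic c).ne_zero, ePol_natDegree]
  refine irreducible_of_eisenstein_criterion hP ?_ ?_ ?_ ?_ (ePol_monic c).isPrimitive
  · rw [(ePol_monic c).leadingCoeff, Ideal.mem_span_singleton]
    norm_num
  · intro n hn
    rw [hdeg] at hn
    have hn' : n < m := by exact_mod_cast hn
    have := ePol_coeff c ⟨n, hn'⟩
    simp only at this
    rw [this, Ideal.mem_span_singleton]
    exact h2 _
  · rw [hdeg]
    exact_mod_cast hm
  · have := ePol_coeff c ⟨0, hm⟩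
    simp only at this
    rw [this, Ideal.span_singleton_pow, Ideal.mem_span_singleton]
    norm_num
    exact h4

private lemma ePol_mahler {m : ℕ} (c : Fin m → ℤ) :
    (((ePol c).map (Int.castRingHom ℂ)).roots.map fun z => Real.log (max 1 ‖z‖)).sum ≤
      Real.log (1 + ∑ i, |(c i : ℝ)|) := by
  set p := (ePol c).map (Int.castRingHom ℂ) with hp
  have hmon : p.Monic := (ePol_monic c).map _
  have hnd : p.natDegree = m := by
    rw [hp, (ePol_monic c).natDegree_map, ePol_natDegree]
  have h1 := logMahlerMeasure_eq_log_leadingCoeff_add_sum_log_roots p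
  rw [hmon.leadingCoeff] at h1
  simp only [norm_one, Real.log_one, zero_add] at h1
  have h2 : (p.roots.map fun z => Real.log (max 1 ‖z‖)).sum = p.logMahlerMeasure := by
    rw [h1]
    congr 1
    refine Multiset.map_congr rfl fun z _ => ?_
    rw [Real.posLog_eq_log_max_one (norm_nonneg z)]
  rw [h2, logMahlerMeasure_eq_log_MahlerMeasure]
  have hpos : 0 < p.mahlerMeasure := mahlerMeasure_pos_of_ne_zero hmon.ne_zero
  refine Real.log_le_log hpos ((mahlerMeasure_le_sum_norm_coeff p).trans (le_of_eq ?_))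
  rw [sum_over_range _ (fun n => norm_zero), hnd, Finset.sum_range_succ, add_comm]
  congr 1
  · have : p.coeff m = 1 := by
      have := hmon.coeff_natDegree
      rwa [hnd] at this
    rw [this, norm_one]
  · rw [Finset.sum_range]
    refine Finset.sum_congr rfl fun i _ => ?_
    rw [hp, coeff_map, ePol_coeff]
    simp

theorem many_polys (m : ℕ) (hm : 1 ≤ m) : ∃ H₀ : ℝ, ∀ H : ℝ, H₀ ≤ H →
    ∃ S : Finset ℤ[X], Real.exp (m * H / 2) ≤ S.card ∧
      ∀ f ∈ S, f.Monic ∧ f.natDegree = m ∧ Irreducible f ∧
        ((f.map (Int.castRingHom ℂ)).roots.map fun z => Real.log (max 1 ‖z‖)).sum ≤ H := by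
  refine ⟨2 * Real.log (8 * m + 2), fun H hH => ?_⟩
  have hm' : (1 : ℝ) ≤ m := by exact_mod_cast hm
  set t : ℝ := Real.exp (H / 2) with ht
  have ht0 : 8 * (m : ℝ) + 2 ≤ t := by
    rw [ht, ← Real.log_le_iff_le_exp (by positivity)]
    linarith
  set M : ℕ := ⌈t⌉₊ with hM
  have hMt : t ≤ M := Nat.le_ceil t
  have hMt' : (M : ℝ) < t + 1 := Nat.ceil_lt_add_one (by positivity)
  set cf : (Fin m → Fin M) → Fin m → ℤ := fun j i =>
    if (i : ℕ) = 0 then 4 * ((j i : ℕ) : ℤ) + 2 else 2 * ((j i : ℕ) : ℤ) with hcf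
  have hinj : Function.Injective fun j => ePol (cf j) := by
    intro j j' h
    funext i
    have h1 := ePol_coeff (cf j) i
    have h2 := ePol_coeff (cf j') i
    simp only at h
    rw [h, h2] at h1
    apply Fin.ext
    simp only [hcf] at h1
    split_ifs at h1 <;> omega
  refine ⟨Finset.univ.image fun j => ePol (cf j), ?_, ?_⟩
  · rw [Finset.card_image_of_injective _ hinj]
    simp only [Finset.card_univ, Fintype.card_fun, Fintype.card_fin, Nat.cast_pow]
    have : Real.exp (m * H / 2) = t ^ m := by
      rw [ht, ← Real.exp_nat_mul]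
      ring_nf
    rw [this]
    gcongr
  · intro f hf
    rw [Finset.mem_image] at hf
    obtain ⟨j, -, rfl⟩ := hf
    refine ⟨ePol_monic _, ePol_natDegree _, ePol_irred hm _ ?_ ?_, ?_⟩
    · intro i
      simp only [hcf]
      split_ifs <;> omega
    · simp only [hcf]
      norm_num
    · refine (ePol_mahler _).trans ?_
      have hb : ∀ i, |(cf j i : ℝ)| ≤ 4 * M := by
        intro i
        have hji : (j i : ℕ) + 1 ≤ M := (j i).2
        have hji' : ((j i : ℕ) : ℝ) + 1 ≤ M := by exact_mod_cast hji
        have hnn : (0 : ℝ) ≤ ((j i : ℕ) : ℝ) := by positivity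
        simp only [hcf]
        split_ifs
        · push_cast
          rw [abs_of_nonneg (by positivity)]
          linarith
        · push_cast
          rw [abs_of_nonneg (by positivity)]
          linarith
      have hs : ∑ i, |(cf j i : ℝ)| ≤ m * (4 * M) := by
        refine (Finset.sum_le_card_nsmul _ _ _ fun i _ => hb i).trans (le_of_eq ?_)
        simp
      have hfin : 1 + ∑ i, |(cf j i : ℝ)| ≤ Real.exp H := by
        have he : Real.exp H = t * t := by
          rw [ht, ← Real.exp_add]
          ring_nf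
        rw [he]
        have hs' : ∑ i, |(cf j i : ℝ)| ≤ m * (4 * (t + 1)) := by
          refine hs.trans ?_
          have : (4 : ℝ) * M ≤ 4 * (t + 1) := by linarith
          exact mul_le_mul_of_nonneg_left this (by positivity)
        nlinarith [mul_le_mul_of_nonneg_right ht0 (by positivity : (0 : ℝ) ≤ t), hs']
      have hpos : 0 < 1 + ∑ i, |(cf j i : ℝ)| := by
        have : 0 ≤ ∑ i, |(cf j i : ℝ)| := Finset.sum_nonneg fun i _ => abs_nonneg _
        linarith
      calc Real.log (1 + ∑ i, |(cf j i : ℝ)|) ≤ Real.log (Real.exp H) :=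
            Real.log_le_log hpos hfin
        _ = H := Real.log_exp H

end VX
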