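import Pool.Agent.VX.Pack

/-! Points of projective space with a given residue field. -/

open NumberField

noncomputable section
namespace VX

universe u

variable {K : Type u} [Field K] [NumberField K]

theorem card_pts (N d : ℕ) : ∃ C : ℝ, 0 < C ∧
    ∀ (L : IntermediateField K (AlgebraicClosure K)), Module.finrank K L = d →
      ∀ T : ℝ, 0 ≤ T → {P : Pts K N | resField P = L ∧ height P ≤ T}.Finite ∧
        ({P : Pts K N | resField P = L ∧ height P ≤ T}.ncard : ℝ) ≤
          C * Real.exp (2 * (N + 1) * d * T) := by
  classical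
  obtain ⟨C, hC, h⟩ := card_height_le.{u} (d * Module.finrank ℚ K)
  refine ⟨C ^ (N + 1), by positivity, fun L hL T hT => ?_⟩
  rcases Nat.eq_zero_or_pos d with hd | hd
  · have hemp : {P : Pts K N | resField P = L ∧ height P ≤ T} = ∅ := by
      ext P
      simp only [Set.mem_ofPred_eq, Set.mem_empty_iff_false, iff_false, not_and]
      intro hP
      have h1 : 0 < Module.finrank K (resField P) := Module.finrank_pos
      rw [hP, hL, hd] at h1
      exact absurd h1 (lt_irrefl _)
    rw [hemp]
    refine ⟨Set.finite_empty, ?_⟩
    rw [Set.ncard_empty, Nat.cast_zero]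
    positivity
  have hfd : FiniteDimensional K L := FiniteDimensional.of_finrank_pos (by omega)
  have nf : NumberField L := numberField_of_finite L
  have hfr : Module.finrank ℚ L = d * Module.finrank ℚ K := by
    rw [← hL, mul_comm, Module.finrank_mul_finrank]
  obtain ⟨hfin, hcard⟩ := h L hfr (d * T) (by positivity)
  set S : Set L := {x : L | Height.logHeight₁ x ≤ d * T} with hS
  let g : Pts K N → Fin (N + 1) → L := fun P i =>
    if hm : P.rep i / P.rep (pivot P) ∈ L then ⟨_, hm⟩ else 0
  have hg : ∀ P : Pts K N, resField P = L → ∀ i,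
      ((g P i : L) : AlgebraicClosure K) = P.rep i / P.rep (pivot P) := by
    intro P hP i
    have hm : P.rep i / P.rep (pivot P) ∈ L := hP ▸ (coords P i).2
    simp only [g, dif_pos hm]
  have hht : ∀ P : Pts K N, resField P = L → height P ≤ T → ∀ i, g P i ∈ S := by
    intro P hP hPT i
    have key : ∀ (M : IntermediateField K (AlgebraicClosure K)) (hM : resField P = M)
        (hMn : NumberField M) (x : M), ((x : AlgebraicClosure K) = P.rep i / P.rep (pivot P)) →
        Height.logHeight₁ x ≤ Height.logHeight (coords P) := by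
      intro M hM hMn x hx
      subst hM
      have hx' : x = coords P i := Subtype.ext hx
      have hp : coords P (pivot P) = 1 := by
        apply Subtype.ext
        exact div_self (pivot_spec P)
      subst hx'
      have h1 := Height.logHeight_comp_le ![i, pivot P] (coords P)
      refine le_trans (le_of_eq ?_) h1
      rw [Height.logHeight₁_eq_logHeight]
      congr 1
      ext j
      fin_cases j
      · simp
      · simp [hp]
    have h1 := key L hP nf (g P i) (hg P hP i)
    have h2 : Height.logHeight (coords P) ≤ d * T := by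
      unfold height at hPT
      rw [div_le_iff₀ (by exact_mod_cast Module.finrank_pos)] at hPT
      have h3 : Module.finrank K (resField P) = d := by rw [hP, hL]
      rw [h3] at hPT
      linarith
    exact h1.trans h2
  have hinj : Set.InjOn g {P : Pts K N | resField P = L ∧ height P ≤ T} := by
    rintro P ⟨hP, -⟩ Q ⟨hQ, -⟩ hPQ
    rw [← P.mk_rep, ← Q.mk_rep, Projectivization.mk_eq_mk_iff']
    refine ⟨P.rep (pivot P) / Q.rep (pivot Q), ?_⟩
    ext i
    have h1 : P.rep i / P.rep (pivot P) = Q.rep i / Q.rep (pivot Q) := by
      rw [← hg P hP, ← hg Q hQ, hPQ]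
    rw [Pi.smul_apply, smul_eq_mul]
    have h2 := pivot_spec P
    have h3 := pivot_spec Q
    field_simp at h1 ⊢
    rw [h1, mul_comm]
  set F : Finset (Fin (N + 1) → L) := Fintype.piFinset fun _ => hfin.toFinset with hF
  have hmaps : Set.MapsTo g {P : Pts K N | resField P = L ∧ height P ≤ T} (F : Set _) := by
    rintro P ⟨hP, hPT⟩
    rw [Finset.mem_coe, hF, Fintype.mem_piFinset]
    intro i
    rw [Set.Finite.mem_toFinset]
    exact hht P hP hPT i
  refine ⟨Set.Finite.of_injOn hmaps hinj F.finite_toSet, ?_⟩
  have h1 := Set.ncard_le_ncard_of_injOn g hmaps hinj F.finite_toSet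
  rw [Set.ncard_coe_finset, hF, Fintype.card_piFinset, Finset.prod_const, Finset.card_univ,
    Fintype.card_fin, ← Set.ncard_eq_toFinset_card _ hfin] at h1
  calc ({P : Pts K N | resField P = L ∧ height P ≤ T}.ncard : ℝ)
      ≤ ((S.ncard ^ (N + 1) : ℕ) : ℝ) := by exact_mod_cast h1
    _ ≤ (C * Real.exp (2 * (d * T))) ^ (N + 1) := by
        push_cast
        exact pow_le_pow_left₀ (Nat.cast_nonneg _) hcard _
    _ = C ^ (N + 1) * Real.exp (2 * (N + 1) * d * T) := by
        rw [mul_pow, ← Real.exp_nat_mul]
        congr 2
        push_cast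
        ring

end VX
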