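import Pool.Agent.VX.Fields
import Pool.Agent.VX.PtsL

/-! The number of points with small discriminant. -/

open NumberField

noncomputable section
namespace VX

universe u

variable (K : Type u) [Field K] [NumberField K]

/-- bookkeeping: a union over finitely many families -/
theorem exc_union {α β : Type*} (n : ℕ) (E : Set α) (Fs : ℕ → Set β) (Q : ℕ → β → Set α)
    (hsub : E ⊆ ⋃ i ∈ Finset.range n, ⋃ L ∈ Fs i, Q i L)
    (a b : ℕ → ℝ) (hb : ∀ i, 0 ≤ b i)
    (hF : ∀ i < n, (Fs i).Finite ∧ ((Fs i).ncard : ℝ) ≤ a i)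
    (hQ : ∀ i < n, ∀ L ∈ Fs i, (Q i L).Finite ∧ ((Q i L).ncard : ℝ) ≤ b i) :
    E.Finite ∧ (E.ncard : ℝ) ≤ ∑ i ∈ Finset.range n, a i * b i := by
  classical
  have hfin : ∀ i ∈ Finset.range n, (⋃ L ∈ Fs i, Q i L).Finite := fun i hi =>
    (hF i (Finset.mem_range.1 hi)).1.biUnion fun L hL => (hQ i (Finset.mem_range.1 hi) L hL).1
  have hfinU : (⋃ i ∈ Finset.range n, ⋃ L ∈ Fs i, Q i L).Finite :=
    Set.Finite.biUnion (Finset.finite_toSet _) hfin
  refine ⟨hfinU.subset hsub, ?_⟩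
  have h1 : (E.ncard : ℝ) ≤ ((⋃ i ∈ Finset.range n, ⋃ L ∈ Fs i, Q i L).ncard : ℝ) := by
    exact_mod_cast Set.ncard_le_ncard hsub hfinU
  refine h1.trans ?_
  have h2 : ((⋃ i ∈ Finset.range n, ⋃ L ∈ Fs i, Q i L).ncard : ℝ) ≤
      ∑ i ∈ Finset.range n, ((⋃ L ∈ Fs i, Q i L).ncard : ℝ) := by
    exact_mod_cast Finset.set_ncard_biUnion_le (Finset.range n) fun i => ⋃ L ∈ Fs i, Q i L
  refine h2.trans (Finset.sum_le_sum fun i hi => ?_)
  have hi' := Finset.mem_range.1 hi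
  have h3 : ((⋃ L ∈ Fs i, Q i L).ncard : ℝ) ≤
      ∑ L ∈ (hF i hi').1.toFinset, ((Q i L).ncard : ℝ) := by
    have := Finset.set_ncard_biUnion_le (hF i hi').1.toFinset fun L => Q i L
    have h4 : (⋃ L ∈ (hF i hi').1.toFinset, Q i L) = ⋃ L ∈ Fs i, Q i L := by
      ext z; simp
    rw [h4] at this
    exact_mod_cast this
  refine h3.trans ?_
  calc ∑ L ∈ (hF i hi').1.toFinset, ((Q i L).ncard : ℝ)
      ≤ ∑ L ∈ (hF i hi').1.toFinset, b i := by
        refine Finset.sum_le_sum fun L hL => ?_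
        exact (hQ i hi' L (by simpa using hL)).2
    _ = (Fs i).ncard * b i := by
        have h5 : (Fs i).ncard = (hF i hi').1.toFinset.card := Set.ncard_eq_toFinset_card _ _
        rw [Finset.sum_const, nsmul_eq_mul]
        exact congrArg (fun q : ℕ => (q : ℝ) * b i) h5.symm
    _ ≤ a i * b i := mul_le_mul_of_nonneg_right (hF i hi').2 (hb i)

theorem card_exc (N r : ℕ) (hr : 1 ≤ r) : ∃ A : ℝ, 0 < A ∧ ∀ d : ℕ, 1 ≤ d → ∃ T₀ : ℝ,
    ∀ T : ℝ, T₀ ≤ T → ∀ lam : ℝ, 1 ≤ lam →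
      (excLE (Set.univ : Set (Pts K N)) d T lam).Finite ∧
      ((excLE (Set.univ : Set (Pts K N)) d T lam).ncard : ℝ) ≤
        Real.exp (A * lam * (d : ℝ) ^ (1 + (1 : ℝ) / r) * T) := by
  classical
  choose Cf hCf hf using fun i : ℕ => card_fields K r hr (i + 1) (by omega)
  choose Cp hCp hp using fun i : ℕ => card_pts (K := K) N (i + 1)
  set k : ℝ := (Module.finrank ℚ K : ℝ) with hk
  have hkpos : 0 < k := by rw [hk]; exact_mod_cast Module.finrank_pos
  have hrR : (1 : ℝ) ≤ r := by exact_mod_cast hr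
  set D₀ : ℝ := Real.log |(discr K : ℝ)| with hD₀
  have hD₀' : 0 ≤ D₀ := by
    apply Real.log_nonneg
    have h1 : (1 : ℤ) ≤ |discr K| := Int.one_le_abs (NumberField.discr_ne_zero K)
    exact_mod_cast h1
  obtain ⟨c₁, hc₁⟩ : ∃ c₁ : ℝ, c₁ = ((8 * r * 4 ^ r : ℕ) : ℝ) := ⟨_, rfl⟩
  have hc₁' : 0 ≤ c₁ := hc₁ ▸ Nat.cast_nonneg _
  refine ⟨2 * c₁ * k ^ ((1 : ℝ) / r) + 2 * (N + 1) + 1, by positivity, fun d hd => ?_⟩
  set S₀ : ℝ := ∑ i ∈ Finset.range d, Cf i * Cp i with hS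
  have hSpos : 0 < S₀ := by
    apply Finset.sum_pos
    · intro i _; exact mul_pos (hCf i) (hCp i)
    · exact ⟨0, Finset.mem_range.2 (by omega)⟩
  refine ⟨max D₀ (Real.log S₀), fun T hT lam hlam => ?_⟩
  have hT1 : D₀ ≤ T := (le_max_left _ _).trans hT
  have hT2 : Real.log S₀ ≤ T := (le_max_right _ _).trans hT
  have hT0 : 0 ≤ T := hD₀'.trans hT1
  have hdR : (1 : ℝ) ≤ d := by exact_mod_cast hd
  set Y : ℕ → ℝ := fun i => Real.exp (((i + 1 : ℕ) : ℝ) * (lam * T + D₀)) with hY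
  have hexp0 : 0 ≤ lam * T + D₀ := by positivity
  have hY1 : ∀ i, 1 ≤ Y i := fun i => Real.one_le_exp (by positivity)
  set a : ℕ → ℝ := fun i => Cf i * Y i ^
    ((8 * r * 4 ^ r : ℕ) * (((i + 1) * Module.finrank ℚ K : ℕ) : ℝ) ^ ((1 : ℝ) / r)) with ha
  set b : ℕ → ℝ := fun i => Cp i * Real.exp (2 * (N + 1) * (i + 1 : ℕ) * T) with hb
  have hb0 : ∀ i, 0 ≤ b i := fun i => by
    have := hCp i
    positivity
  have hun := exc_union d (excLE (Set.univ : Set (Pts K N)) d T lam)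
    (fun i => fieldsLE K (i + 1) (Y i))
    (fun _ L => {P : Pts K N | resField P = L ∧ height P ≤ T}) ?_ a b hb0
    (fun i _ => hf i (Y i) (hY1 i)) (fun i _ L hL => hp i L hL.1 T hT0)
  · refine ⟨hun.1, hun.2.trans ?_⟩
    have hterm : ∀ i ∈ Finset.range d, a i * b i ≤ (Cf i * Cp i) *
        Real.exp (c₁ * k ^ ((1 : ℝ) / r) * (d : ℝ) ^ (1 + (1 : ℝ) / r) * (2 * lam * T)
          + 2 * (N + 1) * d * T) := by
      intro i hi
      have hid : ((i + 1 : ℕ) : ℝ) ≤ d := by exact_mod_cast Finset.mem_range.1 hi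
      have hipos : (0 : ℝ) < ((i + 1 : ℕ) : ℝ) := by positivity
      have hYe : Y i ^ ((8 * r * 4 ^ r : ℕ) * (((i + 1) * Module.finrank ℚ K : ℕ) : ℝ) ^ ((1 : ℝ) / r))
          = Real.exp (((i + 1 : ℕ) : ℝ) * (lam * T + D₀) *
            (c₁ * (((i + 1) * Module.finrank ℚ K : ℕ) : ℝ) ^ ((1 : ℝ) / r))) := by
        rw [hY, hc₁]
        simp only
        rw [← Real.exp_mul]
      have hrp : (((i + 1) * Module.finrank ℚ K : ℕ) : ℝ) ^ ((1 : ℝ) / r)
          ≤ (d : ℝ) ^ ((1 : ℝ) / r) * k ^ ((1 : ℝ) / r) := by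
        rw [← Real.mul_rpow (by positivity) hkpos.le]
        apply Real.rpow_le_rpow (by positivity)
        · rw [Nat.cast_mul, ← hk]
          exact mul_le_mul_of_nonneg_right hid hkpos.le
        · positivity
      have hsum : lam * T + D₀ ≤ 2 * lam * T := by nlinarith
      have hdd : (d : ℝ) ^ (1 + (1 : ℝ) / r) = d * (d : ℝ) ^ ((1 : ℝ) / r) := by
        rw [Real.rpow_add (by linarith), Real.rpow_one]
      have hE1 : ((i + 1 : ℕ) : ℝ) * (lam * T + D₀) *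
            (c₁ * (((i + 1) * Module.finrank ℚ K : ℕ) : ℝ) ^ ((1 : ℝ) / r))
          ≤ c₁ * k ^ ((1 : ℝ) / r) * (d : ℝ) ^ (1 + (1 : ℝ) / r) * (2 * lam * T) := by
        calc ((i + 1 : ℕ) : ℝ) * (lam * T + D₀) *
            (c₁ * (((i + 1) * Module.finrank ℚ K : ℕ) : ℝ) ^ ((1 : ℝ) / r))
            ≤ d * (2 * lam * T) * (c₁ * ((d : ℝ) ^ ((1 : ℝ) / r) * k ^ ((1 : ℝ) / r))) := by
              gcongr
          _ = c₁ * k ^ ((1 : ℝ) / r) * (d : ℝ) ^ (1 + (1 : ℝ) / r) * (2 * lam * T) := by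
              rw [hdd]; ring
      have hE2 : 2 * ((N : ℝ) + 1) * (i + 1 : ℕ) * T ≤ 2 * (N + 1) * d * T := by gcongr
      calc a i * b i = (Cf i * Cp i) * (Real.exp (((i + 1 : ℕ) : ℝ) * (lam * T + D₀) *
            (c₁ * (((i + 1) * Module.finrank ℚ K : ℕ) : ℝ) ^ ((1 : ℝ) / r))) *
            Real.exp (2 * ((N : ℝ) + 1) * (i + 1 : ℕ) * T)) := by
            rw [ha, hb]; simp only; rw [hYe]; ring
        _ ≤ (Cf i * Cp i) *
        Real.exp (c₁ * k ^ ((1 : ℝ) / r) * (d : ℝ) ^ (1 + (1 : ℝ) / r) * (2 * lam * T)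
          + 2 * (N + 1) * d * T) := by
            rw [← Real.exp_add]
            have := mul_pos (hCf i) (hCp i)
            gcongr
    refine (Finset.sum_le_sum hterm).trans ?_
    rw [← Finset.sum_mul, ← hS]
    have hSe : S₀ ≤ Real.exp T := by
      rw [← Real.exp_log hSpos]
      exact Real.exp_le_exp.2 hT2
    calc S₀ * Real.exp (c₁ * k ^ ((1 : ℝ) / r) * (d : ℝ) ^ (1 + (1 : ℝ) / r) * (2 * lam * T)
          + 2 * (N + 1) * d * T)
        ≤ Real.exp T * Real.exp (c₁ * k ^ ((1 : ℝ) / r) * (d : ℝ) ^ (1 + (1 : ℝ) / r) * (2 * lam * T)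
          + 2 * (N + 1) * d * T) := by gcongr
      _ = Real.exp (T + (c₁ * k ^ ((1 : ℝ) / r) * (d : ℝ) ^ (1 + (1 : ℝ) / r) * (2 * lam * T)
          + 2 * (N + 1) * d * T)) := by rw [← Real.exp_add]
      _ ≤ _ := by
        apply Real.exp_le_exp.2
        have hdd : (d : ℝ) ≤ (d : ℝ) ^ (1 + (1 : ℝ) / r) := by
          calc (d : ℝ) = (d : ℝ) ^ (1 : ℝ) := (Real.rpow_one _).symm
            _ ≤ (d : ℝ) ^ (1 + (1 : ℝ) / r) := by
              apply Real.rpow_le_rpow_of_exponent_le hdR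
              have : (0 : ℝ) ≤ 1 / r := by positivity
              linarith
        set X : ℝ := (d : ℝ) ^ (1 + (1 : ℝ) / r) with hX
        have hX1 : 1 ≤ X := hdR.trans hdd
        have h1 : T ≤ 1 * lam * X * T := by
          have : 1 ≤ 1 * lam * X := by nlinarith
          nlinarith
        have h2 : 2 * ((N : ℝ) + 1) * d * T ≤ 2 * (N + 1) * lam * X * T := by
          have : (d : ℝ) ≤ lam * X := by nlinarith
          have hN : 0 ≤ 2 * ((N : ℝ) + 1) := by positivity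
          calc 2 * ((N : ℝ) + 1) * d * T ≤ 2 * ((N : ℝ) + 1) * (lam * X) * T := by gcongr
            _ = _ := by ring
        calc T + (c₁ * k ^ ((1 : ℝ) / r) * X * (2 * lam * T) + 2 * (N + 1) * d * T)
            ≤ 1 * lam * X * T + (c₁ * k ^ ((1 : ℝ) / r) * X * (2 * lam * T)
              + 2 * (N + 1) * lam * X * T) := by gcongr
          _ = (2 * c₁ * k ^ ((1 : ℝ) / r) + 2 * (N + 1) + 1) * lam * X * T := by ring
  · intro P hP
    obtain ⟨⟨_, h1, h2⟩, h3⟩ := hP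
    have hpos : 0 < Module.finrank K (resField P) := Module.finrank_pos
    simp only [Set.mem_iUnion, Finset.mem_range]
    refine ⟨Module.finrank K (resField P) - 1, by omega, resField P, ⟨by omega, ?_⟩, rfl, h2⟩
    refine ⟨inferInstance, ?_⟩
    have hd0 : (0 : ℝ) < |(discr (resField P) : ℝ)| := by
      rw [abs_pos]
      exact_mod_cast NumberField.discr_ne_zero (resField P)
    rw [hY]
    simp only
    rw [← Real.log_le_iff_le_exp hd0]
    have hn1 : Module.finrank K (resField P) - 1 + 1 = Module.finrank K (resField P) := by omega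
    rw [hn1]
    unfold logDisc at h3
    have hposR : (0 : ℝ) < Module.finrank K (resField P) := by exact_mod_cast hpos
    have h4 : Real.log |(discr (resField P) : ℝ)| / Module.finrank K (resField P) ≤ lam * T + D₀ := by
      linarith
    rw [div_le_iff₀ hposR] at h4
    linarith

end VX
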