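import Pool.Agent.VX.Defs

/-! Generic small combinations have spanning monomials. -/

open NumberField

noncomputable section
namespace VX

universe u

/-- the generic determinant -/
def genMat (D r b : ℕ) (hb : D ≤ b ^ r) (w : Fin D → Fin D → ℂ) :
    Matrix (Fin D) (Fin D) (MvPolynomial (Fin r × Fin D) ℂ) :=
  Matrix.of fun k l => ∏ j, (∑ i, MvPolynomial.C (w k i) * MvPolynomial.X (j, i)) ^
    ((finFunctionFinEquiv.symm (Fin.castLE hb l) j : Fin b) : ℕ)

theorem degreeOf_genMat (D r b : ℕ) (hb : D ≤ b ^ r) (w : Fin D → Fin D → ℂ) (k l : Fin D)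
    (p : Fin r × Fin D) : MvPolynomial.degreeOf p (genMat D r b hb w k l) ≤ r * b := by
  classical
  have h1 : ∀ j : Fin r, MvPolynomial.degreeOf p
      ((∑ i, MvPolynomial.C (w k i) * MvPolynomial.X (j, i) :
        MvPolynomial (Fin r × Fin D) ℂ)) ≤ 1 := by
    intro j
    refine (MvPolynomial.degreeOf_sum_le _ _ _).trans (Finset.sup_le fun i _ => ?_)
    refine (MvPolynomial.degreeOf_C_mul_le _ _ _).trans ?_
    rw [MvPolynomial.degreeOf_X]
    split_ifs <;> omega
  unfold genMat
  rw [Matrix.of_apply]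
  refine (MvPolynomial.degreeOf_prod_le _ _ _).trans ?_
  refine (Finset.sum_le_sum fun j _ => (MvPolynomial.degreeOf_pow_le _ _ _).trans
    ((Nat.mul_le_mul_left _ (h1 j)).trans ?_)).trans (b := ∑ _j : Fin r, b) ?_
  · rw [mul_one]
    exact (Fin.isLt _).le
  · simp

theorem degreeOf_det (D r b : ℕ) (hb : D ≤ b ^ r) (w : Fin D → Fin D → ℂ)
    (p : Fin r × Fin D) : MvPolynomial.degreeOf p (genMat D r b hb w).det ≤ D * (r * b) := by
  classical
  rw [Matrix.det_apply']
  refine (MvPolynomial.degreeOf_sum_le _ _ _).trans (Finset.sup_le fun σ _ => ?_)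
  have h2 : ((Equiv.Perm.sign σ : ℤ) : MvPolynomial (Fin r × Fin D) ℂ) =
      MvPolynomial.C ((Equiv.Perm.sign σ : ℤ) : ℂ) := by simp
  rw [h2]
  refine (MvPolynomial.degreeOf_C_mul_le _ _ _).trans ?_
  refine (MvPolynomial.degreeOf_prod_le _ _ _).trans ?_
  refine (Finset.sum_le_sum fun j _ => degreeOf_genMat D r b hb w _ _ p).trans ?_
  simp

theorem eval_det (D r b : ℕ) (hb : D ≤ b ^ r) (w : Fin D → Fin D → ℂ)
    (a : Fin r × Fin D → ℂ) : MvPolynomial.eval a (genMat D r b hb w).det =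
      (Matrix.of fun k l : Fin D => ∏ j, (∑ i, w k i * a (j, i)) ^
        ((finFunctionFinEquiv.symm (Fin.castLE hb l) j : Fin b) : ℕ)).det := by
  rw [RingHom.map_det]
  congr 1
  ext k l
  simp [genMat]

theorem det_ne_zero (D r b : ℕ) (hb : D ≤ b ^ r) (w : Fin D → Fin D → ℂ)
    (hw : (Matrix.of w).det ≠ 0) : (genMat D r b hb w).det ≠ 0 := by
  classical
  intro h0
  -- the point
  set W : Matrix (Fin D) (Fin D) ℂ := Matrix.of w with hW
  have hWu : IsUnit W.det := isUnit_iff_ne_zero.2 hw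
  let t : Fin r → Fin D → ℂ := fun j k => 2 ^ ((k : ℕ) * b ^ (j : ℕ))
  let a : Fin r × Fin D → ℂ := fun p => (W⁻¹.mulVec (t p.1)) p.2
  have ha : ∀ k j, ∑ i, w k i * a (j, i) = t j k := by
    intro k j
    have h1 : W.mulVec (W⁻¹.mulVec (t j)) = t j := by
      rw [Matrix.mulVec_mulVec, Matrix.mul_nonsing_inv _ hWu, Matrix.one_mulVec]
    have h2 := congrFun h1 k
    simpa [Matrix.mulVec, dotProduct, hW, a] using h2
  have h3 := eval_det D r b hb w a
  rw [h0, map_zero] at h3
  have h4 : (Matrix.of fun k l : Fin D => ∏ j, (∑ i, w k i * a (j, i)) ^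
        ((finFunctionFinEquiv.symm (Fin.castLE hb l) j : Fin b) : ℕ)) =
      Matrix.vandermonde (fun k : Fin D => (2 : ℂ) ^ (k : ℕ)) := by
    ext k l
    rw [Matrix.of_apply, Matrix.vandermonde_apply]
    simp only [ha, t, ← pow_mul, Finset.prod_pow_eq_pow_sum]
    congr 1
    have h5 : ∑ j : Fin r, ((finFunctionFinEquiv.symm (Fin.castLE hb l) j : Fin b) : ℕ) *
        b ^ (j : ℕ) = l := by
      rw [← finFunctionFinEquiv_apply, Equiv.apply_symm_apply]
      rfl
    calc ∑ j : Fin r, (k : ℕ) * b ^ (j : ℕ) *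
          ((finFunctionFinEquiv.symm (Fin.castLE hb l) j : Fin b) : ℕ)
        = ∑ j : Fin r, (k : ℕ) * (((finFunctionFinEquiv.symm (Fin.castLE hb l) j : Fin b) : ℕ) *
          b ^ (j : ℕ)) := Finset.sum_congr rfl fun j _ => by ring
      _ = (k : ℕ) * l := by rw [← Finset.mul_sum, h5]
  rw [h4] at h3
  refine (Matrix.det_vandermonde_ne_zero_iff.2 ?_) h3.symm
  intro k l hkl
  have h6 : (2 : ℕ) ^ (k : ℕ) = 2 ^ (l : ℕ) := by
    have : ((2 ^ (k : ℕ) : ℕ) : ℂ) = ((2 ^ (l : ℕ) : ℕ) : ℂ) := by push_cast; exact hkl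
    exact_mod_cast this
  exact Fin.ext (Nat.pow_right_injective le_rfl h6)

/-- for a basis `v` of a number field of degree `D ≤ b ^ r` there are `r` combinations of the
`v i` with bounded natural coefficients whose monomials with exponents `< b` span -/
theorem exists_gen (D r b : ℕ) (hb : D ≤ b ^ r) : ∃ M : ℕ,
    ∀ (L : Type u) [Field L] [NumberField L], Module.finrank ℚ L = D →
      ∀ v : Fin D → L, LinearIndependent ℚ v →
        ∃ a : Fin r → Fin D → ℕ, (∀ j i, a j i ≤ M) ∧
          Submodule.span ℚ (Set.range fun e : Fin r → Fin b =>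
            ∏ j, (∑ i, (a j i : L) * v i) ^ (e j : ℕ)) = ⊤ := by
  classical
  refine ⟨D * (r * b), fun L _ _ hD v hv => ?_⟩
  let e : Fin D ≃ (L →ₐ[ℚ] ℂ) := Fintype.equivOfCardEq (by
    rw [Fintype.card_fin, AlgHom.card, hD])
  let w : Fin D → Fin D → ℂ := fun k i => e k (v i)
  have : Nonempty (Fin D) := by
    rw [← hD]
    exact ⟨⟨0, Module.finrank_pos⟩⟩
  let B : Module.Basis (Fin D) ℚ L := basisOfLinearIndependentOfCardEqFinrank hv (by simp [hD])
  have hB : ∀ i, B i = v i := fun i => by simp [B]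
  have hw : (Matrix.of w).det ≠ 0 := by
    have h1 := Algebra.discr_not_zero_of_basis ℚ B
    have h2 := Algebra.discr_eq_det_embeddingsMatrixReindex_pow_two ℚ ℂ B e
    intro h0
    have h3 : Algebra.embeddingsMatrixReindex ℚ ℂ B e = (Matrix.of w).transpose := by
      ext i j
      simp [Algebra.embeddingsMatrixReindex, Algebra.embeddingsMatrix, w, hB]
    rw [h3, Matrix.det_transpose, h0, zero_pow two_ne_zero] at h2
    exact h1 ((map_eq_zero _).1 h2)
  have hP := det_ne_zero D r b hb w hw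
  obtain ⟨a, ha, ha0⟩ : ∃ a : Fin r × Fin D → ℂ,
      (∀ p, a p ∈ (Finset.range (D * (r * b) + 1)).image (fun n : ℕ => (n : ℂ))) ∧
      MvPolynomial.eval a (genMat D r b hb w).det ≠ 0 := by
    by_contra hcon
    push Not at hcon
    refine hP (MvPolynomial.eq_zero_of_eval_zero_at_prod_finset _
      (fun _ => (Finset.range (D * (r * b) + 1)).image (fun n : ℕ => (n : ℂ))) ?_ ?_)
    · intro p
      rw [Finset.card_image_of_injective _ Nat.cast_injective, Finset.card_range]
      have := degreeOf_det D r b hb w p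
      omega
    · exact hcon
  have hch : ∀ p, ∃ n : ℕ, n ≤ D * (r * b) ∧ (n : ℂ) = a p := by
    intro p
    obtain ⟨n, hn, hn'⟩ := Finset.mem_image.1 (ha p)
    exact ⟨n, by rw [Finset.mem_range] at hn; omega, hn'⟩
  choose n hn hna using hch
  refine ⟨fun j i => n (j, i), fun j i => hn _, ?_⟩
  let x : Fin D → L := fun l => ∏ j, (∑ i, (n (j, i) : L) * v i) ^
    ((finFunctionFinEquiv.symm (Fin.castLE hb l) j : Fin b) : ℕ)
  have hx : LinearIndependent ℚ x := by
    rw [Fintype.linearIndependent_iff]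
    intro c hc
    rw [eval_det] at ha0
    have h1 : (Matrix.of fun k l : Fin D => ∏ j, (∑ i, w k i * a (j, i)) ^
        ((finFunctionFinEquiv.symm (Fin.castLE hb l) j : Fin b) : ℕ)) =
        Matrix.of fun k l => e k (x l) := by
      ext k l
      simp only [Matrix.of_apply, x, map_prod, map_pow, map_sum, map_mul, map_natCast, hna, w]
      refine Finset.prod_congr rfl fun j _ => ?_
      congr 1
      exact Finset.sum_congr rfl fun i _ => mul_comm _ _
    rw [h1] at ha0
    have h2 : (Matrix.of fun k l => e k (x l)).mulVec (fun l => (c l : ℂ)) = 0 := by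
      ext k
      have h3 := congrArg (e k) hc
      rw [map_sum, map_zero] at h3
      simp only [Matrix.mulVec, dotProduct, Matrix.of_apply, Pi.zero_apply]
      rw [← h3]
      refine Finset.sum_congr rfl fun l _ => ?_
      rw [Algebra.smul_def, map_mul, AlgHom.commutes, mul_comm]
      rfl
    have h4 := Matrix.eq_zero_of_mulVec_eq_zero ha0 h2
    intro l
    have h5 := congrFun h4 l
    simpa using h5
  have hspan := hx.span_eq_top_of_card_eq_finrank (by simp [hD])
  rw [eq_top_iff, ← hspan]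
  refine Submodule.span_mono ?_
  rintro _ ⟨l, rfl⟩
  exact ⟨finFunctionFinEquiv.symm (Fin.castLE hb l), rfl⟩

end VX
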