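import Pool.Agent.VX.Defs

/-! A field is determined by the traces of the monomials in suitable elements. -/

open NumberField

noncomputable section
namespace VX

universe u v

theorem prod_shift {M : Type u} [CommMonoid M] {r b : ℕ} (a : Fin r → M) (i : Fin r)
    (e f : Fin r → Fin b) :
    ∏ j, a j ^ ((if j = i then 1 else 0) + (e j : ℕ) + f j) =
      a i * (∏ j, a j ^ (e j : ℕ)) * ∏ j, a j ^ (f j : ℕ) := by
  simp only [pow_add, Finset.prod_mul_distrib, pow_ite, pow_one, pow_zero,
    Finset.prod_ite_eq', Finset.mem_univ, if_true]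

theorem algEquiv_of_trace {L : Type u} {L' : Type v} [Field L] [NumberField L] [Field L']
    [NumberField L'] {r b : ℕ} (hb : 0 < b) (α : Fin r → L) (α' : Fin r → L')
    (hα : Submodule.span ℚ (Set.range fun e : Fin r → Fin b => ∏ j, α j ^ (e j : ℕ)) = ⊤)
    (hα' : Submodule.span ℚ (Set.range fun e : Fin r → Fin b => ∏ j, α' j ^ (e j : ℕ)) = ⊤)
    (h : ∀ e : Fin r → Fin (2 * b), Algebra.trace ℚ L (∏ j, α j ^ (e j : ℕ)) =
      Algebra.trace ℚ L' (∏ j, α' j ^ (e j : ℕ))) :
    Nonempty (L ≃ₐ[ℚ] L') := by
  classical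
  set m : (Fin r → Fin b) → L := fun e => ∏ j, α j ^ (e j : ℕ) with hm
  set m' : (Fin r → Fin b) → L' := fun e => ∏ j, α' j ^ (e j : ℕ) with hm'
  have tr0 : ∀ g : Fin r → ℕ, (∀ j, g j < 2 * b) →
      Algebra.trace ℚ L (∏ j, α j ^ g j) = Algebra.trace ℚ L' (∏ j, α' j ^ g j) := by
    intro g hg
    exact h fun j => ⟨g j, hg j⟩
  have tr1 : ∀ e f : Fin r → Fin b,
      Algebra.trace ℚ L (m e * m f) = Algebra.trace ℚ L' (m' e * m' f) := by
    intro e f
    have := tr0 (fun j => (e j : ℕ) + f j) (fun j => by have := (e j).2; have := (f j).2; omega)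
    simpa only [hm, hm', ← Finset.prod_mul_distrib, ← pow_add] using this
  have tr2 : ∀ (i : Fin r) (e f : Fin r → Fin b),
      Algebra.trace ℚ L (α i * m e * m f) = Algebra.trace ℚ L' (α' i * m' e * m' f) := by
    intro i e f
    have := tr0 (fun j => (if j = i then 1 else 0) + (e j : ℕ) + f j)
      (fun j => by have := (e j).2; have := (f j).2; split_ifs <;> omega)
    rw [prod_shift, prod_shift] at this
    exact this
  -- nondegeneracy
  have nd : ∀ x : L, (∀ f, Algebra.trace ℚ L (x * m f) = 0) → x = 0 := by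
    intro x hx
    refine (traceForm_nondegenerate ℚ L).1 x fun y => ?_
    have hy : y ∈ Submodule.span ℚ (Set.range m) := by rw [hα]; trivial
    induction hy using Submodule.span_induction with
    | mem z hz => obtain ⟨f, rfl⟩ := hz; exact hx f
    | zero => simp
    | add a c _ _ ha hc => rw [map_add, ha, hc, add_zero]
    | smul q a _ ha => rw [map_smul, ha, smul_zero]
  have nd' : ∀ x : L', (∀ f, Algebra.trace ℚ L' (x * m' f) = 0) → x = 0 := by
    intro x hx
    refine (traceForm_nondegenerate ℚ L').1 x fun y => ?_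
    have hy : y ∈ Submodule.span ℚ (Set.range m') := by rw [hα']; trivial
    induction hy using Submodule.span_induction with
    | mem z hz => obtain ⟨f, rfl⟩ := hz; exact hx f
    | zero => simp
    | add a c _ _ ha hc => rw [map_add, ha, hc, add_zero]
    | smul q a _ ha => rw [map_smul, ha, smul_zero]
  let A : ((Fin r → Fin b) → ℚ) →ₗ[ℚ] L := Fintype.linearCombination ℚ m
  let A' : ((Fin r → Fin b) → ℚ) →ₗ[ℚ] L' := Fintype.linearCombination ℚ m'
  have hA : Function.Surjective A := by
    rw [← LinearMap.range_eq_top, Fintype.range_linearCombination, hα]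
  have hA' : Function.Surjective A' := by
    rw [← LinearMap.range_eq_top, Fintype.range_linearCombination, hα']
  have htrA : ∀ c f, Algebra.trace ℚ L (A c * m f) = Algebra.trace ℚ L' (A' c * m' f) := by
    intro c f
    simp only [A, A', Fintype.linearCombination_apply, Finset.sum_mul, smul_mul_assoc, map_sum,
      map_smul, tr1]
  have hker : LinearMap.ker A = LinearMap.ker A' := by
    ext c
    simp only [LinearMap.mem_ker]
    constructor
    · intro hc
      refine nd' _ fun f => ?_
      rw [← htrA, hc, zero_mul, map_zero]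
    · intro hc
      refine nd _ fun f => ?_
      rw [htrA, hc, zero_mul, map_zero]
  let φ : L ≃ₗ[ℚ] L' := (A.quotKerEquivOfSurjective hA).symm ≪≫ₗ
    (Submodule.quotEquivOfEq _ _ hker) ≪≫ₗ (A'.quotKerEquivOfSurjective hA')
  have hφA : ∀ c, φ (A c) = A' c := by
    intro c
    have h1 : (A.quotKerEquivOfSurjective hA).symm (A c) = Submodule.Quotient.mk c := by
      rw [LinearEquiv.symm_apply_eq]
      rfl
    simp only [φ, LinearEquiv.trans_apply, h1]
    rfl
  have hφm : ∀ e, φ (m e) = m' e := by
    intro e
    have h1 : A (Pi.single e 1) = m e := by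
      simp [A, Fintype.linearCombination_apply, Pi.single_apply]
    have h2 : A' (Pi.single e 1) = m' e := by
      simp [A', Fintype.linearCombination_apply, Pi.single_apply]
    rw [← h1, hφA, h2]
  have hφtr : ∀ x f, Algebra.trace ℚ L' (φ x * m' f) = Algebra.trace ℚ L (x * m f) := by
    intro x f
    obtain ⟨c, rfl⟩ := hA x
    rw [hφA, htrA]
  have htrB : ∀ x y, Algebra.trace ℚ L' (φ x * φ y) = Algebra.trace ℚ L (x * y) := by
    intro x y
    have hy : y ∈ Submodule.span ℚ (Set.range m) := by rw [hα]; trivial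
    induction hy using Submodule.span_induction with
    | mem z hz => obtain ⟨f, rfl⟩ := hz; rw [hφm]; exact hφtr x f
    | zero => simp
    | add a c _ _ ha hc => rw [map_add, mul_add, mul_add, map_add, map_add, ha, hc]
    | smul q a _ ha => rw [map_smul, mul_smul_comm, mul_smul_comm, map_smul, map_smul, ha]
  have hmul1 : ∀ i x, φ (α i * x) = α' i * φ x := by
    intro i x
    have hx : x ∈ Submodule.span ℚ (Set.range m) := by rw [hα]; trivial
    induction hx using Submodule.span_induction with
    | mem z hz =>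
      obtain ⟨e, rfl⟩ := hz
      rw [← sub_eq_zero]
      refine nd' _ fun f => ?_
      rw [sub_mul, map_sub, hφtr, hφm, tr2, sub_self]
    | zero => simp
    | add a c _ _ ha hc => rw [mul_add, map_add, map_add, mul_add, ha, hc]
    | smul q a _ ha => rw [mul_smul_comm, map_smul, map_smul, mul_smul_comm, ha]
  have hpow : ∀ i (k : ℕ) x, φ (α i ^ k * x) = α' i ^ k * φ x := by
    intro i k
    induction k with
    | zero => intro x; simp
    | succ k ih => intro x; rw [pow_succ, mul_assoc, ih, hmul1, pow_succ, mul_assoc]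
  have hprod : ∀ (e : Fin r → ℕ) (s : Finset (Fin r)) x,
      φ ((∏ j ∈ s, α j ^ e j) * x) = (∏ j ∈ s, α' j ^ e j) * φ x := by
    intro e s
    induction s using Finset.induction_on with
    | empty => intro x; simp
    | insert a s ha ih =>
      intro x
      rw [Finset.prod_insert ha, Finset.prod_insert ha, mul_assoc, hpow, ih, mul_assoc]
  have hone : φ 1 = 1 := by
    have h1 : m (fun _ => ⟨0, hb⟩) = 1 := by simp [hm]
    have h2 : m' (fun _ => ⟨0, hb⟩) = 1 := by simp [hm']
    rw [← h1, hφm, h2]
  have hmul : ∀ x y, φ (x * y) = φ x * φ y := by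
    intro x y
    have hx : x ∈ Submodule.span ℚ (Set.range m) := by rw [hα]; trivial
    induction hx using Submodule.span_induction with
    | mem z hz =>
      obtain ⟨e, rfl⟩ := hz
      rw [hφm]
      exact hprod (fun j => (e j : ℕ)) Finset.univ y
    | zero => simp
    | add a c _ _ ha hc => rw [add_mul, map_add, map_add, add_mul, ha, hc]
    | smul q a _ ha => rw [smul_mul_assoc, map_smul, map_smul, smul_mul_assoc, ha]
  exact ⟨AlgEquiv.ofLinearEquiv φ hone hmul⟩

end VX
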