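import Pool.Agent.VX.Span
import Pool.Agent.VX.Gen
import Pool.Agent.VX.Mom

/-! The number of fields of given degree and bounded discriminant. -/

open NumberField

noncomputable section
namespace VX

universe u

variable (K : Type u) [Field K] [NumberField K]

/-- the subfields of the algebraic closure of `K`, of degree `d` over `K`, with absolute
discriminant at most `Y` -/
def fieldsLE (d : ℕ) (Y : ℝ) : Set (IntermediateField K (AlgebraicClosure K)) :=
  {L | Module.finrank K L = d ∧ ∃ _ : NumberField L, |(discr L : ℝ)| ≤ Y}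

/-- the trace vector of a field -/
def HasMoments {r b : ℕ} (L : Type u) [Field L] [NumberField L]
    (μ : (Fin r → Fin (2 * b)) → ℤ) : Prop :=
  ∃ α : Fin r → L,
    Submodule.span ℚ (Set.range fun e : Fin r → Fin b => ∏ j, α j ^ (e j : ℕ)) = ⊤ ∧
    ∀ e : Fin r → Fin (2 * b), Algebra.trace ℚ L (∏ j, α j ^ (e j : ℕ)) = (μ e : ℚ)

theorem norm_trace_le {L : Type u} [Field L] [NumberField L] {x : L} {R : ℝ}
    (h : ∀ φ : L →+* ℂ, ‖φ x‖ ≤ R) :
    |(Algebra.trace ℚ L x : ℝ)| ≤ Module.finrank ℚ L * R := by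
  have h1 := trace_eq_sum_embeddings (K := ℚ) (L := L) ℂ (x := x)
  have h2 : ‖(algebraMap ℚ ℂ (Algebra.trace ℚ L x))‖ ≤ Module.finrank ℚ L * R := by
    rw [h1]
    refine (norm_sum_le _ _).trans ?_
    calc ∑ σ : L →ₐ[ℚ] ℂ, ‖σ x‖ ≤ ∑ _σ : L →ₐ[ℚ] ℂ, R :=
          Finset.sum_le_sum fun σ _ => h σ.toRingHom
      _ = _ := by
          rw [Finset.sum_const, Finset.card_univ, AlgHom.card, nsmul_eq_mul]
  have h3 : ‖(algebraMap ℚ ℂ (Algebra.trace ℚ L x))‖ = |(Algebra.trace ℚ L x : ℝ)| := by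
    rw [eq_ratCast, ← Complex.ofReal_ratCast, Complex.norm_real, Real.norm_eq_abs]
  rwa [h3] at h2

/-- every field of bounded discriminant has a bounded trace vector -/
theorem exists_moments (D r b : ℕ) (hD : 0 < D) (hb : D ≤ b ^ r) : ∃ C : ℝ, 1 ≤ C ∧
    ∀ Y : ℝ, 1 ≤ Y → ∀ (L : Type u) [Field L] [NumberField L], Module.finrank ℚ L = D →
      |(discr L : ℝ)| ≤ Y → ∃ μ : (Fin r → Fin (2 * b)) → ℤ, HasMoments L μ ∧
        ∀ e, |(μ e : ℝ)| ≤ D * (C * Y ^ ((2 : ℝ) / D)) ^ (2 * b * r) := by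
  obtain ⟨C1, hC1, hsmall⟩ := exists_small_basis.{u} D hD
  obtain ⟨M, hgen⟩ := exists_gen.{u} D r b hb
  have hCge : (1 : ℝ) ≤ D * M * C1 + 1 := by
    have : 0 ≤ (D : ℝ) * M * C1 := by positivity
    linarith
  refine ⟨D * M * C1 + 1, hCge, ?_⟩
  intro Y hY L _ _ hfin hdisc
  obtain ⟨v, hlin, hint, hbd⟩ := hsmall L hfin
  obtain ⟨a, ha, hspan⟩ := hgen L hfin v hlin
  set α : Fin r → L := fun j => ∑ i, (a j i : L) * v i with hα
  have hY0 : (1 : ℝ) ≤ Y ^ ((2 : ℝ) / D) := Real.one_le_rpow hY (by positivity)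
  set R : ℝ := (D * M * C1 + 1) * Y ^ ((2 : ℝ) / D) with hR
  have hR1 : 1 ≤ R := by
    rw [hR]
    nlinarith
  have hαint : ∀ j, IsIntegral ℤ (α j) := by
    intro j
    refine IsIntegral.sum _ fun i _ => ?_
    refine IsIntegral.mul ?_ (hint i)
    have := isIntegral_algebraMap (R := ℤ) (A := L) (x := (a j i : ℤ))
    simpa using this
  have hmonint : ∀ e : Fin r → Fin (2 * b), IsIntegral ℤ (∏ j, α j ^ (e j : ℕ)) := fun e =>
    IsIntegral.prod _ fun j _ => (hαint j).pow _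
  have hαbd : ∀ j (φ : L →+* ℂ), ‖φ (α j)‖ ≤ R := by
    intro j φ
    rw [hα, map_sum]
    refine (norm_sum_le _ _).trans ?_
    have h1 : ∀ i ∈ (Finset.univ : Finset (Fin D)), ‖φ ((a j i : L) * v i)‖ ≤
        M * (C1 * Y ^ ((2 : ℝ) / D)) := by
      intro i _
      rw [map_mul, map_natCast, norm_mul, Complex.norm_natCast]
      have h2 : ‖φ (v i)‖ ≤ C1 * Y ^ ((2 : ℝ) / D) := by
        refine (hbd i φ).trans ?_
        refine mul_le_mul_of_nonneg_left ?_ (by linarith)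
        exact Real.rpow_le_rpow (abs_nonneg _) hdisc (by positivity)
      have h3 : (a j i : ℝ) ≤ M := by exact_mod_cast ha j i
      exact mul_le_mul h3 h2 (norm_nonneg _) (by positivity)
    refine (Finset.sum_le_sum h1).trans ?_
    rw [Finset.sum_const, Finset.card_univ, Fintype.card_fin, nsmul_eq_mul, hR]
    nlinarith
  have htr : ∀ e : Fin r → Fin (2 * b), ∃ t : ℤ,
      algebraMap ℤ ℚ t = Algebra.trace ℚ L (∏ j, α j ^ (e j : ℕ)) := fun e =>
    IsIntegrallyClosed.isIntegral_iff.mp (Algebra.isIntegral_trace (hmonint e))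
  choose μ hμ using htr
  refine ⟨μ, ⟨α, hspan, fun e => ?_⟩, fun e => ?_⟩
  · rw [← hμ e]
    simp
  · have h1 : (μ e : ℝ) = ((Algebra.trace ℚ L (∏ j, α j ^ (e j : ℕ)) : ℚ) : ℝ) := by
      rw [← hμ e]
      simp
    rw [h1]
    have h2 := norm_trace_le (x := ∏ j, α j ^ (e j : ℕ)) (R := R ^ (2 * b * r)) fun φ => by
      rw [map_prod, norm_prod]
      calc ∏ j, ‖φ (α j ^ (e j : ℕ))‖ ≤ ∏ _j : Fin r, R ^ (2 * b) := by
            refine Finset.prod_le_prod (fun j _ => norm_nonneg _) fun j _ => ?_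
            rw [map_pow, norm_pow]
            calc ‖φ (α j)‖ ^ (e j : ℕ) ≤ R ^ (e j : ℕ) :=
                  pow_le_pow_left₀ (norm_nonneg _) (hαbd j φ) _
              _ ≤ R ^ (2 * b) := pow_le_pow_right₀ hR1 (e j).2.le
        _ = R ^ (2 * b * r) := by
            rw [Finset.prod_const, Finset.card_univ, Fintype.card_fin, ← pow_mul]
    rw [hfin] at h2
    exact h2

/-- the subfields isomorphic to a given field -/
theorem iso_fibre (L : Type u) [Field L] [NumberField L]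
    (S : Set (IntermediateField K (AlgebraicClosure K)))
    (hS : ∀ L' ∈ S, Nonempty (L ≃+* L')) :
    S.Finite ∧ S.ncard ≤ Module.finrank ℚ L := by
  classical
  have hex : ∀ L' ∈ S, ∃ f : L →+* AlgebraicClosure K, Set.range f = (L' : Set (AlgebraicClosure K)) := by
    intro L' hL'
    obtain ⟨e⟩ := hS L' hL'
    refine ⟨(algebraMap L' (AlgebraicClosure K)).comp e.toRingHom, ?_⟩
    ext z
    constructor
    · rintro ⟨x, rfl⟩
      exact (e x).2
    · intro hz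
      obtain ⟨x, hx⟩ := e.surjective ⟨z, hz⟩
      refine ⟨x, ?_⟩
      show ((e x : L') : AlgebraicClosure K) = z
      rw [hx]
  choose! f hf using hex
  have hinj : Set.InjOn f S := by
    intro L1 h1 L2 h2 h
    apply SetLike.coe_injective
    rw [← hf L1 h1, ← hf L2 h2, h]
  have hfin : S.Finite := Set.Finite.of_finite_image (Set.toFinite _) hinj
  refine ⟨hfin, ?_⟩
  rw [← hinj.ncard_image, ← NumberField.Embeddings.card L (AlgebraicClosure K)]
  rw [← Nat.card_eq_fintype_card, ← Set.ncard_univ]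
  exact Set.ncard_le_ncard (Set.subset_univ _) (Set.toFinite _)

theorem ceil_bounds (D r : ℕ) (hD : 1 ≤ D) (hr : 1 ≤ r) : ∃ b : ℕ, D ≤ b ^ r ∧ 0 < b ∧
    (b : ℝ) ≤ 2 * (D : ℝ) ^ ((1 : ℝ) / r) := by
  have hD' : (1 : ℝ) ≤ D := by exact_mod_cast hD
  have h1 : (1 : ℝ) ≤ (D : ℝ) ^ ((1 : ℝ) / r) := Real.one_le_rpow hD' (by positivity)
  refine ⟨⌈(D : ℝ) ^ ((1 : ℝ) / r)⌉₊, ?_, Nat.ceil_pos.mpr (by linarith), ?_⟩
  · have h2 : (D : ℝ) ^ ((1 : ℝ) / r) ≤ (⌈(D : ℝ) ^ ((1 : ℝ) / r)⌉₊ : ℝ) := Nat.le_ceil _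
    have h3 := pow_le_pow_left₀ (by positivity) h2 r
    rw [← Real.rpow_natCast, ← Real.rpow_mul (by positivity),
      one_div_mul_cancel (by positivity), Real.rpow_one] at h3
    exact_mod_cast h3
  · have := Nat.ceil_lt_add_one (show 0 ≤ (D : ℝ) ^ ((1 : ℝ) / r) by positivity)
    linarith

theorem card_fields (r : ℕ) (hr : 1 ≤ r) (d : ℕ) (hd : 1 ≤ d) : ∃ C : ℝ, 0 < C ∧
    ∀ Y : ℝ, 1 ≤ Y → (fieldsLE K d Y).Finite ∧ ((fieldsLE K d Y).ncard : ℝ) ≤
      C * Y ^ ((8 * r * 4 ^ r : ℕ) * ((d * Module.finrank ℚ K : ℕ) : ℝ) ^ ((1 : ℝ) / r)) := by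
  classical
  set D := d * Module.finrank ℚ K with hDdef
  have hK : 0 < Module.finrank ℚ K := Module.finrank_pos
  have hD : 1 ≤ D := Nat.mul_pos hd hK
  obtain ⟨b, hbD, hb0, hb2⟩ := ceil_bounds D r hD hr
  obtain ⟨C0, hC0, hmom⟩ := exists_moments.{u} D r b hD hbD
  refine ⟨D * (3 * D * C0 ^ (2 * b * r)) ^ ((2 * b) ^ r), by positivity, ?_⟩
  intro Y hY
  have hY0 : (1 : ℝ) ≤ Y ^ ((2 : ℝ) / D) := Real.one_le_rpow hY (by positivity)
  set T : ℝ := D * (C0 * Y ^ ((2 : ℝ) / D)) ^ (2 * b * r) with hT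
  have hD' : (1 : ℝ) ≤ D := by exact_mod_cast hD
  have hT1 : 1 ≤ T := by
    have h1 : 1 ≤ (C0 * Y ^ ((2 : ℝ) / D)) ^ (2 * b * r) := one_le_pow₀ (by nlinarith)
    rw [hT]
    nlinarith
  set N : ℕ := ⌊T⌋₊ with hN
  set Box : Finset ((Fin r → Fin (2 * b)) → ℤ) :=
    Fintype.piFinset fun _ => Finset.Icc (-(N : ℤ)) N with hBox
  set F : ((Fin r → Fin (2 * b)) → ℤ) → Set (IntermediateField K (AlgebraicClosure K)) :=
    fun μ => {L | L ∈ fieldsLE K d Y ∧ ∃ _ : NumberField L, HasMoments L μ} with hF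
  have hfinrank : ∀ L ∈ fieldsLE K d Y, Module.finrank ℚ L = D := by
    intro L hL
    have h1 := Module.finrank_mul_finrank ℚ K L
    rw [hL.1] at h1
    rw [← h1, hDdef, mul_comm]
  have hcover : fieldsLE K d Y ⊆ ⋃ μ ∈ Box, F μ := by
    intro L hL
    obtain ⟨hL1, hNF, hL2⟩ := hL
    obtain ⟨μ, hμ, hbd⟩ := hmom Y hY L (hfinrank L ⟨hL1, hNF, hL2⟩) hL2
    refine Set.mem_iUnion₂.mpr ⟨μ, ?_, ⟨⟨hL1, hNF, hL2⟩, hNF, hμ⟩⟩
    rw [hBox, Fintype.mem_piFinset]
    intro e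
    have h1 : |(μ e : ℝ)| ≤ T := hbd e
    have h2 : ((μ e).natAbs : ℝ) ≤ T := by
      rw [Nat.cast_natAbs]
      push_cast
      exact h1
    have h3 : (μ e).natAbs ≤ N := Nat.le_floor h2
    rw [Finset.mem_Icc]
    omega
  have hFib : ∀ μ, (F μ).Finite ∧ (F μ).ncard ≤ D := by
    intro μ
    by_cases hne : (F μ).Nonempty
    · obtain ⟨L, hL, hNF, hm⟩ := hne
      have h1 := iso_fibre K L (F μ) (by
        rintro L' ⟨hL', hNF', hm'⟩
        obtain ⟨α, hα1, hα2⟩ := hm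
        obtain ⟨α', hα1', hα2'⟩ := hm'
        obtain ⟨e⟩ := algEquiv_of_trace hb0 α α' hα1 hα1' (fun e => by rw [hα2, hα2'])
        exact ⟨e.toRingEquiv⟩)
      rw [hfinrank L hL] at h1
      exact h1
    · rw [Set.not_nonempty_iff_eq_empty.mp hne]
      simp
  have hfin : (⋃ μ ∈ Box, F μ).Finite :=
    Set.Finite.biUnion (Finset.finite_toSet Box) fun μ _ => (hFib μ).1
  refine ⟨hfin.subset hcover, ?_⟩
  have hcard : (fieldsLE K d Y).ncard ≤ Box.card * D := by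
    refine (Set.ncard_le_ncard hcover hfin).trans ?_
    refine (Finset.set_ncard_biUnion_le Box F).trans ?_
    refine (Finset.sum_le_sum fun μ _ => (hFib μ).2).trans ?_
    rw [Finset.sum_const, smul_eq_mul]
  have hBcard : (Box.card : ℝ) = (2 * N + 1) ^ ((2 * b) ^ r) := by
    rw [hBox, Fintype.card_piFinset]
    simp only [Int.card_Icc, Finset.prod_const, Finset.card_univ, Fintype.card_fun,
      Fintype.card_fin]
    have : ((N : ℤ) + 1 - -(N : ℤ)).toNat = 2 * N + 1 := by omega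
    rw [this]
    push_cast
    rfl
  have hNT : (2 * (N : ℝ) + 1) ≤ 3 * T := by
    have := Nat.floor_le (show 0 ≤ T by linarith)
    linarith
  have hexp : (3 * T) ^ ((2 * b) ^ r) = (3 * D * C0 ^ (2 * b * r)) ^ ((2 * b) ^ r) *
      Y ^ ((2 : ℝ) / D * (2 * b * r) * (2 * b) ^ r) := by
    rw [hT, mul_pow C0, Real.rpow_mul (by linarith), Real.rpow_mul (by linarith)]
    have e1 : (Y ^ ((2 : ℝ) / D)) ^ ((2 : ℝ) * b * r) = (Y ^ ((2 : ℝ) / D)) ^ (2 * b * r) := by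
      rw [← Real.rpow_natCast]
      push_cast
      rfl
    rw [e1]
    have e2 : ((Y ^ ((2 : ℝ) / D)) ^ (2 * b * r)) ^ (((2 : ℝ) * b) ^ r) =
        ((Y ^ ((2 : ℝ) / D)) ^ (2 * b * r)) ^ ((2 * b) ^ r) := by
      rw [← Real.rpow_natCast _ ((2 * b) ^ r)]
      push_cast
      rfl
    rw [e2, ← mul_pow]
    ring
  have hexpo : (2 : ℝ) / D * (2 * b * r) * (2 * b) ^ r ≤
      (8 * r * 4 ^ r : ℕ) * (D : ℝ) ^ ((1 : ℝ) / r) := by
    have h1 : ((2 : ℝ) * b) ^ r ≤ 4 ^ r * D := by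
      have h2 : ((2 : ℝ) * b) ≤ 4 * (D : ℝ) ^ ((1 : ℝ) / r) := by linarith
      have h3 := pow_le_pow_left₀ (by positivity) h2 r
      rw [mul_pow 4, ← Real.rpow_natCast ((D : ℝ) ^ ((1 : ℝ) / r)) r,
        ← Real.rpow_mul (by positivity), one_div, inv_mul_cancel₀ (by positivity),
        Real.rpow_one] at h3
      exact h3
    calc (2 : ℝ) / D * (2 * b * r) * (2 * b) ^ r ≤ 2 / D * (2 * b * r) * (4 ^ r * D) :=
          mul_le_mul_of_nonneg_left h1 (by positivity)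
      _ = 4 * r * 4 ^ r * b := by
          field_simp
          ring
      _ ≤ 4 * r * 4 ^ r * (2 * (D : ℝ) ^ ((1 : ℝ) / r)) :=
          mul_le_mul_of_nonneg_left hb2 (by positivity)
      _ = _ := by
          push_cast
          ring
  calc ((fieldsLE K d Y).ncard : ℝ) ≤ Box.card * D := by exact_mod_cast hcard
    _ ≤ (3 * T) ^ ((2 * b) ^ r) * D := by
        refine mul_le_mul_of_nonneg_right ?_ (by positivity)
        rw [hBcard]
        exact pow_le_pow_left₀ (by positivity) hNT _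
    _ = D * (3 * D * C0 ^ (2 * b * r)) ^ ((2 * b) ^ r) *
        Y ^ ((2 : ℝ) / D * (2 * b * r) * (2 * b) ^ r) := by
        rw [hexp]
        ring
    _ ≤ _ := by
        refine mul_le_mul_of_nonneg_left ?_ (by positivity)
        exact Real.rpow_le_rpow_of_exponent_le hY hexpo

end VX
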