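import Pool.Agent.VX.Defs

/-! Uniform count of the elements of bounded height of a number field. -/

open NumberField

noncomputable section
namespace VX

universe u

section aux

variable {L : Type u} [Field L]

theorem pack_support [NumberField L] (x : L) :
    Function.HasFiniteMulSupport (fun v : FinitePlace L => max (v x) 1) := by
  rcases eq_or_ne x 0 with rfl | hx
  · have : (fun v : FinitePlace L => max (v (0 : L)) 1) = fun _ => (1 : ℝ) := by
      funext v
      simp
    rw [this]
    simp [Function.HasFiniteMulSupport]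
  · refine (FinitePlace.hasFiniteMulSupport hx).subset ?_
    intro v hv
    rw [Function.mem_mulSupport] at hv ⊢
    intro h
    apply hv
    rw [h]
    simp

/-- the chordal distance at an infinite place -/
def chord (v : InfinitePlace L) (x y : L) : ℝ := v (x - y) / (max (v x) 1 * max (v y) 1)

theorem chord_nonneg (v : InfinitePlace L) (x y : L) : 0 ≤ chord v x y := by
  unfold chord
  positivity

theorem pack_prod [NumberField L] {x y : L} (hxy : x ≠ y) :
    1 ≤ (∏ v : InfinitePlace L, chord v x y ^ v.mult) *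
      (Height.mulHeight₁ x * Height.mulHeight₁ y) := by
  have h1 := prod_abs_eq_one (sub_ne_zero.2 hxy)
  have h2 : (∏ᶠ w : FinitePlace L, w (x - y)) ≤
      (∏ᶠ w : FinitePlace L, max (w x) 1) * ∏ᶠ w : FinitePlace L, max (w y) 1 := by
    rw [← finprod_mul_distrib (pack_support x) (pack_support y)]
    refine finprod_le_finprod (FinitePlace.hasFiniteMulSupport (sub_ne_zero.2 hxy))
      (fun w => apply_nonneg w _) ((pack_support x).mul (pack_support y)) fun w => ?_
    have h3 : w (x - y) ≤ max (w x) (w y) := by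
      have h := FinitePlace.add_le w x (-y)
      have e : (w : FinitePlace L) (-y) = w y := by
        rw [FinitePlace.coe_apply, FinitePlace.coe_apply]
        exact w.1.map_neg y
      rw [e] at h
      rwa [sub_eq_add_neg]
    have h4 : (1 : ℝ) ≤ max (w x) 1 := le_max_right _ _
    have h5 : (1 : ℝ) ≤ max (w y) 1 := le_max_right _ _
    refine h3.trans (max_le ?_ ?_)
    · calc w x ≤ max (w x) 1 := le_max_left _ _
        _ = max (w x) 1 * 1 := (mul_one _).symm
        _ ≤ max (w x) 1 * max (w y) 1 := by gcongr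
    · calc w y ≤ max (w y) 1 := le_max_left _ _
        _ = 1 * max (w y) 1 := (one_mul _).symm
        _ ≤ max (w x) 1 * max (w y) 1 := by gcongr
  have h3 : (∏ v : InfinitePlace L, v (x - y) ^ v.mult) =
      (∏ v : InfinitePlace L, chord v x y ^ v.mult) *
        ((∏ v : InfinitePlace L, max (v x) 1 ^ v.mult) *
          ∏ v : InfinitePlace L, max (v y) 1 ^ v.mult) := by
    rw [← Finset.prod_mul_distrib, ← Finset.prod_mul_distrib]
    refine Finset.prod_congr rfl fun v _ => ?_
    rw [← mul_pow, ← mul_pow]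
    congr 1
    unfold chord
    have h4 : (0 : ℝ) < max (v x) 1 := lt_max_of_lt_right one_pos
    have h5 : (0 : ℝ) < max (v y) 1 := lt_max_of_lt_right one_pos
    field_simp
  rw [NumberField.mulHeight₁_eq, NumberField.mulHeight₁_eq]
  have h6 : 0 ≤ ∏ v : InfinitePlace L, v (x - y) ^ v.mult :=
    Finset.prod_nonneg fun v _ => pow_nonneg (apply_nonneg v _) _
  calc (1 : ℝ) = (∏ v : InfinitePlace L, v (x - y) ^ v.mult) *
        ∏ᶠ w : FinitePlace L, w (x - y) := h1.symm
    _ ≤ (∏ v : InfinitePlace L, v (x - y) ^ v.mult) *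
        ((∏ᶠ w : FinitePlace L, max (w x) 1) * ∏ᶠ w : FinitePlace L, max (w y) 1) :=
      mul_le_mul_of_nonneg_left h2 h6
    _ = _ := by
      rw [h3]
      ring

/-- the normalised complex number -/
def nrm (z : ℂ) : ℂ := if ‖z‖ ≤ 1 then z else z⁻¹

theorem norm_nrm_le (z : ℂ) : ‖nrm z‖ ≤ 1 := by
  unfold nrm
  split_ifs with h
  · exact h
  · rw [norm_inv]
    exact inv_le_one_of_one_le₀ (le_of_lt (not_le.1 h))

theorem nrm_im {z : ℂ} (hz : z.im = 0) : (nrm z).im = 0 := by
  unfold nrm
  split_ifs with h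
  · exact hz
  · rw [Complex.inv_im, hz]
    simp

theorem nrm_dist {z w : ℂ} (h : (‖z‖ ≤ 1) ↔ (‖w‖ ≤ 1)) :
    ‖z - w‖ / (max ‖z‖ 1 * max ‖w‖ 1) = ‖nrm z - nrm w‖ := by
  unfold nrm
  by_cases hz : ‖z‖ ≤ 1
  · have hw := h.1 hz
    rw [if_pos hz, if_pos hw, max_eq_right hz, max_eq_right hw]
    simp
  · have hw : ¬ ‖w‖ ≤ 1 := fun hw => hz (h.2 hw)
    rw [if_neg hz, if_neg hw, max_eq_left (le_of_lt (not_le.1 hz)),
      max_eq_left (le_of_lt (not_le.1 hw))]
    have hz0 : z ≠ 0 := by
      rintro rfl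
      simp at hz
    have hw0 : w ≠ 0 := by
      rintro rfl
      simp at hw
    have e : z⁻¹ - w⁻¹ = (w - z) / (z * w) := by
      field_simp
    rw [e, norm_div, norm_mul, norm_sub_rev]

/-- the cell of a complex number -/
def cell (m : ℕ) (z : ℂ) : Bool × ℤ × ℤ :=
  (decide (‖z‖ ≤ 1), ⌊(m : ℝ) * (nrm z).re⌋, ⌊(m : ℝ) * (nrm z).im⌋)

theorem abs_sub_lt_of_floor {m : ℕ} (hm : 0 < m) {a b : ℝ}
    (h : ⌊(m : ℝ) * a⌋ = ⌊(m : ℝ) * b⌋) : |a - b| < 1 / m := by
  have hm' : (0 : ℝ) < m := by exact_mod_cast hm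
  have h1 := Int.abs_sub_lt_one_of_floor_eq_floor h
  rw [← mul_sub, abs_mul, abs_of_pos hm'] at h1
  rw [lt_div_iff₀ hm', mul_comm]
  exact h1

theorem cell_dist {m : ℕ} (hm : 0 < m) {z w : ℂ} (h : cell m z = cell m w) :
    ‖z - w‖ / (max ‖z‖ 1 * max ‖w‖ 1) < 2 / m := by
  unfold cell at h
  simp only [Prod.mk.injEq, decide_eq_decide] at h
  obtain ⟨h1, h2, h3⟩ := h
  rw [nrm_dist h1]
  have e1 := abs_sub_lt_of_floor hm h2
  have e2 := abs_sub_lt_of_floor hm h3
  have e3 := Complex.norm_le_abs_re_add_abs_im (nrm z - nrm w)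
  rw [Complex.sub_re, Complex.sub_im] at e3
  have e4 : (2 : ℝ) / m = 1 / m + 1 / m := by ring
  rw [e4]
  linarith

theorem cell_floor {m : ℕ} {a : ℝ} (ha : |a| ≤ 1) :
    ⌊(m : ℝ) * a⌋ ∈ Finset.Icc (-(m : ℤ)) m := by
  have hm' : (0 : ℝ) ≤ m := Nat.cast_nonneg _
  obtain ⟨h1, h2⟩ := abs_le.1 ha
  rw [Finset.mem_Icc]
  constructor
  · rw [Int.le_floor]
    push_cast
    nlinarith
  · have h3 : (m : ℝ) * a ≤ ((m : ℤ) : ℝ) := by
      push_cast
      nlinarith
    exact (Int.floor_le_floor h3).trans (by rw [Int.floor_intCast])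

/-- the possible cells at a place -/
def cells (m : ℕ) (v : InfinitePlace L) : Finset (Bool × ℤ × ℤ) :=
  Finset.univ ×ˢ (Finset.Icc (-(m : ℤ)) m ×ˢ
    (if v.mult = 1 then {0} else Finset.Icc (-(m : ℤ)) m))

theorem cell_mem (m : ℕ) (v : InfinitePlace L) (x : L) :
    cell m (v.embedding x) ∈ cells m v := by
  unfold cell cells
  rw [Finset.mem_product, Finset.mem_product]
  have h0 := norm_nrm_le (v.embedding x)
  refine ⟨Finset.mem_univ _, cell_floor ((Complex.abs_re_le_norm _).trans h0), ?_⟩
  split_ifs with h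
  · have hr : v.IsReal := by
      by_contra hr
      rw [InfinitePlace.not_isReal_iff_isComplex] at hr
      have := hr
      rw [InfinitePlace.mult_isComplex ⟨v, hr⟩] at h
      omega
    have h1 : (v.embedding x).im = 0 := by
      have h2 := InfinitePlace.isReal_iff.1 hr
      have h3 := ComplexEmbedding.IsReal.coe_embedding_apply h2 x
      rw [← h3]
      exact Complex.ofReal_im _
    rw [nrm_im h1]
    simp
  · exact cell_floor ((Complex.abs_im_le_norm _).trans h0)

theorem card_cells (m : ℕ) (v : InfinitePlace L) :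
    ((cells m v).card : ℝ) ≤ (2 * (2 * (m : ℝ) + 1)) ^ v.mult := by
  have h1 : (Finset.Icc (-(m : ℤ)) m).card = 2 * m + 1 := by
    rw [Int.card_Icc]
    omega
  have hm : (0 : ℝ) ≤ m := Nat.cast_nonneg _
  unfold cells
  rw [Finset.card_product, Finset.card_product, h1]
  split_ifs with h
  · rw [h, Finset.card_singleton]
    simp
  · have h2 : v.mult = 2 := by
      have h3 := v.mult_pos
      by_cases hr : v.IsReal
      · exact absurd (InfinitePlace.mult_isReal ⟨v, hr⟩) h
      · rw [InfinitePlace.not_isReal_iff_isComplex] at hr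
        exact InfinitePlace.mult_isComplex ⟨v, hr⟩
    rw [h2, h1]
    simp only [Finset.card_univ, Fintype.card_bool]
    push_cast
    nlinarith

end aux

theorem card_height_le (D : ℕ) : ∃ C : ℝ, 0 < C ∧
    ∀ (L : Type u) [Field L] [NumberField L], Module.finrank ℚ L = D → ∀ H : ℝ, 0 ≤ H →
      {x : L | Height.logHeight₁ x ≤ H}.Finite ∧
      ({x : L | Height.logHeight₁ x ≤ H}.ncard : ℝ) ≤ C * Real.exp (2 * H) := by
  refine ⟨14 ^ D, by positivity, fun L _ _ hL H hH => ?_⟩
  have hfin : {x : L | Height.logHeight₁ x ≤ H}.Finite := finite_setOfPred_logHeight₁_le L H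
  refine ⟨hfin, ?_⟩
  classical
  have hD : 0 < D := by
    rw [← hL]
    exact Module.finrank_pos
  have hDr : (0 : ℝ) < D := by exact_mod_cast hD
  set E : ℝ := Real.exp (2 * H / D) with hE
  have hE1 : 1 ≤ E := by
    rw [hE]
    exact Real.one_le_exp (by positivity)
  have hED : E ^ D = Real.exp (2 * H) := by
    rw [hE, ← Real.exp_nat_mul]
    congr 1
    field_simp
  obtain ⟨m, hm1, hm2⟩ : ∃ m : ℕ, 2 * E < m ∧ (m : ℝ) ≤ 2 * E + 1 := by
    refine ⟨⌊2 * E⌋₊ + 1, by exact_mod_cast Nat.lt_floor_add_one (2 * E), ?_⟩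
    push_cast
    have := Nat.floor_le (show 0 ≤ 2 * E by positivity)
    linarith
  have hm0 : 0 < m := by
    have : (0 : ℝ) < m := by linarith
    exact_mod_cast this
  have hm0' : (0 : ℝ) < m := by exact_mod_cast hm0
  -- injectivity
  have hinj : Set.InjOn (fun (x : L) (v : InfinitePlace L) => cell m (v.embedding x))
      {x : L | Height.logHeight₁ x ≤ H} := by
    intro x hx y hy hxy
    by_contra hne
    have h1 := pack_prod hne
    have h2 : ∀ v : InfinitePlace L, chord v x y ≤ 2 / m := by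
      intro v
      have h3 := cell_dist hm0 (congrFun hxy v)
      have h4 : chord v x y =
          ‖v.embedding x - v.embedding y‖ / (max ‖v.embedding x‖ 1 * max ‖v.embedding y‖ 1) := by
        unfold chord
        rw [← map_sub, InfinitePlace.norm_embedding_eq, InfinitePlace.norm_embedding_eq,
          InfinitePlace.norm_embedding_eq]
      rw [h4]
      exact h3.le
    have h10 : (∏ v : InfinitePlace L, chord v x y ^ v.mult) ≤
        ∏ v : InfinitePlace L, (2 / (m : ℝ)) ^ v.mult :=
      Finset.prod_le_prod (fun v _ => pow_nonneg (chord_nonneg v x y) _)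
        fun v _ => pow_le_pow_left₀ (chord_nonneg v x y) (h2 v) _
    rw [Finset.prod_pow_eq_pow_sum, InfinitePlace.sum_mult_eq, hL] at h10
    have h11 : (2 / (m : ℝ)) ^ D < (Real.exp (2 * H))⁻¹ := by
      rw [← hED, ← inv_pow]
      refine pow_lt_pow_left₀ ?_ (by positivity) hD.ne'
      rw [div_lt_iff₀ hm0', ← div_eq_inv_mul, lt_div_iff₀ (by linarith)]
      exact hm1
    have h5 := h10.trans_lt h11
    have h6 : Height.mulHeight₁ x ≤ Real.exp H := by
      rw [← Real.log_le_iff_le_exp (Height.mulHeight₁_pos x)]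
      exact hx
    have h7 : Height.mulHeight₁ y ≤ Real.exp H := by
      rw [← Real.log_le_iff_le_exp (Height.mulHeight₁_pos y)]
      exact hy
    have h8 : Height.mulHeight₁ x * Height.mulHeight₁ y ≤ Real.exp (2 * H) := by
      have : Real.exp (2 * H) = Real.exp H * Real.exp H := by
        rw [← Real.exp_add]
        congr 1
        ring
      rw [this]
      exact mul_le_mul h6 h7 (Height.mulHeight₁_nonneg y) (Real.exp_pos _).le
    have h9 : (∏ v : InfinitePlace L, chord v x y ^ v.mult) *
        (Height.mulHeight₁ x * Height.mulHeight₁ y) < 1 := by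
      have hpos := Real.exp_pos (2 * H)
      calc (∏ v : InfinitePlace L, chord v x y ^ v.mult) *
          (Height.mulHeight₁ x * Height.mulHeight₁ y) <
          (Real.exp (2 * H))⁻¹ * (Height.mulHeight₁ x * Height.mulHeight₁ y) :=
            mul_lt_mul_of_pos_right h5
              (mul_pos (Height.mulHeight₁_pos x) (Height.mulHeight₁_pos y))
        _ ≤ (Real.exp (2 * H))⁻¹ * Real.exp (2 * H) :=
            mul_le_mul_of_nonneg_left h8 (inv_nonneg.2 hpos.le)
        _ = 1 := inv_mul_cancel₀ hpos.ne'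
    linarith
  -- the count
  have hcard : {x : L | Height.logHeight₁ x ≤ H}.ncard ≤
      (Fintype.piFinset (fun v : InfinitePlace L => cells m v)).card := by
    rw [← Set.ncard_coe_finset]
    refine Set.ncard_le_ncard_of_injOn
      (fun (x : L) (v : InfinitePlace L) => cell m (v.embedding x)) ?_ hinj
      (Finset.finite_toSet _)
    intro x _
    rw [Finset.mem_coe, Fintype.mem_piFinset]
    exact fun v => cell_mem m v x
  rw [Fintype.card_piFinset] at hcard
  calc ({x : L | Height.logHeight₁ x ≤ H}.ncard : ℝ) ≤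
      ((∏ v : InfinitePlace L, (cells m v).card : ℕ) : ℝ) := by exact_mod_cast hcard
    _ = ∏ v : InfinitePlace L, ((cells m v).card : ℝ) := by push_cast; rfl
    _ ≤ ∏ v : InfinitePlace L, (2 * (2 * (m : ℝ) + 1)) ^ v.mult :=
        Finset.prod_le_prod (fun v _ => Nat.cast_nonneg _) fun v _ => card_cells m v
    _ = (2 * (2 * (m : ℝ) + 1)) ^ D := by
        rw [Finset.prod_pow_eq_pow_sum, InfinitePlace.sum_mult_eq, hL]
    _ ≤ (14 * E) ^ D := by
        refine pow_le_pow_left₀ (by positivity) ?_ D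
        linarith
    _ = 14 ^ D * Real.exp (2 * H) := by rw [mul_pow, hED]

end VX
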