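import Pool.Agent.VX.Defs
import Pool.Agent.GE.Mink

/-! Small integers spanning a number field. -/

open NumberField

noncomputable section
namespace VX

universe u

/-! ### The product lemma -/

theorem span_card_lemma {D : ℕ} (hD : 0 < D) (q : Fin D → ℝ) (hq : ∀ i, 1 ≤ q i) {X : ℝ}
    (hX : 1 ≤ X) (hprod : ∏ i, q i ≤ X) :
    D < 2 * (Finset.univ.filter fun i => q i ≤ X ^ ((2 : ℝ) / D)).card := by
  classical
  by_contra hcon
  push Not at hcon
  set Bd := X ^ ((2 : ℝ) / D) with hBd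
  set S := Finset.univ.filter fun i => q i ≤ Bd with hS
  set T := Finset.univ.filter fun i => ¬ q i ≤ Bd with hT
  have hDpos : (0 : ℝ) < D := by exact_mod_cast hD
  have hcard : S.card + T.card = D := by
    have := Finset.card_filter_add_card_filter_not (s := (Finset.univ : Finset (Fin D)))
      (fun i => q i ≤ Bd)
    simpa [hS, hT] using this
  have hT2 : D ≤ 2 * T.card := by omega
  have hTne : T.Nonempty := by
    rw [← Finset.card_pos]
    omega
  have hBd1 : 1 ≤ Bd := Real.one_le_rpow hX (by positivity)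
  have h1 : ∏ i ∈ T, q i ≤ ∏ i, q i := by
    rw [← Finset.prod_filter_mul_prod_filter_not Finset.univ (fun i => q i ≤ Bd)]
    have h2 : 1 ≤ ∏ i ∈ Finset.univ.filter (fun i => q i ≤ Bd), q i :=
      Finset.prod_induction _ (fun x : ℝ => 1 ≤ x) (fun a b ha hb => by nlinarith) le_rfl
        fun i _ => hq i
    have h3 : 0 ≤ ∏ i ∈ T, q i := Finset.prod_nonneg fun i _ => by linarith [hq i]
    calc ∏ i ∈ T, q i = 1 * ∏ i ∈ T, q i := (one_mul _).symm
      _ ≤ _ := mul_le_mul_of_nonneg_right h2 h3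
  have h4 : ∏ _i ∈ T, Bd < ∏ i ∈ T, q i := by
    refine Finset.prod_lt_prod_of_nonempty (fun i _ => by linarith) (fun i hi => ?_) hTne
    have := (Finset.mem_filter.1 hi).2
    exact not_le.1 this
  rw [Finset.prod_const] at h4
  have h5 : X ≤ Bd ^ T.card := by
    rw [hBd, ← Real.rpow_natCast, ← Real.rpow_mul (by linarith)]
    calc X = X ^ (1 : ℝ) := (Real.rpow_one X).symm
      _ ≤ _ := Real.rpow_le_rpow_of_exponent_le hX ?_
    rw [div_mul_eq_mul_div, le_div_iff₀ hDpos, one_mul]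
    exact_mod_cast hT2
  linarith

/-! ### The isotropy lemma -/

section iso

open scoped Pointwise

variable {L : Type u} [Field L] [NumberField L]

theorem mul_self_eq_top (V : Submodule ℚ L)
    (h : Module.finrank ℚ L < 2 * Module.finrank ℚ V) : V * V = ⊤ := by
  by_contra hne
  obtain ⟨ψ, hψ0, hψ⟩ := Submodule.exists_le_ker_of_lt_top (V * V) (lt_top_iff_ne_top.2 hne)
  let F : V →ₗ[ℚ] Module.Dual ℚ L :=
    { toFun := fun x => ψ ∘ₗ LinearMap.mulLeft ℚ (x : L)
      map_add' := by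
        intro x y
        ext z
        simp [add_mul]
      map_smul' := by
        intro c x
        ext z
        simp }
  have hF : ∀ (x : V) (y : L), F x y = ψ ((x : L) * y) := fun _ _ => rfl
  have hinj : Function.Injective F := by
    rw [← LinearMap.ker_eq_bot, LinearMap.ker_eq_bot']
    intro x hx
    by_contra hx0
    have hx0' : (x : L) ≠ 0 := fun h => hx0 (Subtype.ext h)
    apply hψ0
    ext z
    have h1 : F x ((x : L)⁻¹ * z) = 0 := by rw [hx]; rfl
    rw [hF, ← mul_assoc, mul_inv_cancel₀ hx0', one_mul] at h1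
    simpa using h1
  have hrange : LinearMap.range F ≤ V.dualAnnihilator := by
    rintro _ ⟨x, rfl⟩
    rw [Submodule.mem_dualAnnihilator]
    intro y hy
    rw [hF]
    exact hψ (Submodule.mul_mem_mul x.2 hy)
  have h1 : Module.finrank ℚ V ≤ Module.finrank ℚ V.dualAnnihilator := by
    rw [← LinearMap.finrank_range_of_inj hinj]
    exact Submodule.finrank_mono hrange
  have h2 := Subspace.finrank_add_finrank_dualAnnihilator_eq V
  omega

theorem exists_products {D : ℕ} (hL : Module.finrank ℚ L = D) (v : Fin D → L)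
    (hv : LinearIndependent ℚ v) (S : Finset (Fin D)) (hS : D < 2 * S.card) :
    ∃ a b : Fin D → Fin D, (∀ i, a i ∈ S) ∧ (∀ i, b i ∈ S) ∧
      LinearIndependent ℚ (fun i => v (a i) * v (b i)) := by
  classical
  set V : Submodule ℚ L := Submodule.span ℚ (v '' (S : Set (Fin D))) with hV
  have hVf : Module.finrank ℚ V = S.card := by
    have h1 : LinearIndependent ℚ (fun i : S => v i) := hv.comp _ Subtype.val_injective
    have h2 := finrank_span_eq_card h1
    rw [Fintype.card_coe] at h2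
    have hr : Set.range (fun i : S => v i) = v '' (S : Set (Fin D)) := by
      ext x
      simp
    rw [← h2, hV, hr]
  have htop : V * V = ⊤ := mul_self_eq_top V (by rw [hL, hVf]; exact hS)
  rw [hV, Submodule.span_mul_span] at htop
  obtain ⟨t, ht1, ht2, ht3⟩ := exists_linearIndependent ℚ
    ((v '' (S : Set (Fin D))) * (v '' (S : Set (Fin D))))
  rw [htop] at ht2
  let Bb : Module.Basis t ℚ L := Module.Basis.mk ht3 (by
    rw [Subtype.range_coe_subtype, Set.ofPred_mem_eq, ht2])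
  have : Fintype t := FiniteDimensional.fintypeBasisIndex Bb
  have hcard : Fintype.card t = D := by rw [← hL, Module.finrank_eq_card_basis Bb]
  obtain ⟨e⟩ : Nonempty (Fin D ≃ t) := ⟨(Fintype.equivFinOfCardEq hcard).symm⟩
  have hmem : ∀ i : Fin D, ∃ a b : Fin D, a ∈ S ∧ b ∈ S ∧ v a * v b = (e i : L) := by
    intro i
    obtain ⟨x, ⟨a, ha, rfl⟩, y, ⟨b, hb, rfl⟩, hxy⟩ := Set.mem_mul.1 (ht1 (e i).2)
    exact ⟨a, b, ha, hb, hxy⟩
  choose a b ha hb hab using hmem
  refine ⟨a, b, ha, hb, ?_⟩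
  have h3 : (fun i => v (a i) * v (b i)) = (fun x : t => (x : L)) ∘ e := by
    funext i
    exact hab i
  rw [h3]
  exact ht3.comp _ e.injective

end iso

/-! ### The Gram matrix -/

section gram

variable {L : Type u} [Field L] [NumberField L]

open ComplexConjugate

theorem conj_sum_emb (a b : L) :
    conj (∑ τ : L →+* ℂ, τ a * conj (τ b)) = ∑ τ : L →+* ℂ, τ a * conj (τ b) := by
  rw [map_sum, ← Equiv.sum_comp (ComplexEmbedding.involutive_conjugate L).toPerm]
  refine Finset.sum_congr rfl fun τ _ => ?_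
  simp [ComplexEmbedding.conjugate_coe_eq]

variable {D : ℕ} (w : Fin D → L)

/-- the Gram matrix of the trace form `Σ_τ Re(τ x conj(τ y))` -/
def gram : Matrix (Fin D) (Fin D) ℝ := fun i j => (∑ τ : L →+* ℂ, τ (w i) * conj (τ (w j))).re

theorem ofReal_gram (i j : Fin D) :
    ((gram w i j : ℝ) : ℂ) = ∑ τ : L →+* ℂ, τ (w i) * conj (τ (w j)) :=
  Complex.conj_eq_iff_re.1 (conj_sum_emb _ _)

theorem Q_gram (x : Fin D → ℝ) : Pool.Agent.GE.Mink.Q (gram w) x =
    ∑ τ : L →+* ℂ, ‖∑ i, (x i : ℂ) * τ (w i)‖ ^ 2 := by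
  have h : ((Pool.Agent.GE.Mink.Q (gram w) x : ℝ) : ℂ) =
      ((∑ τ : L →+* ℂ, ‖∑ i, (x i : ℂ) * τ (w i)‖ ^ 2 : ℝ) : ℂ) := by
    unfold Pool.Agent.GE.Mink.Q
    push_cast
    simp only [ofReal_gram]
    have h1 : ∀ τ : L →+* ℂ, ((‖∑ i, (x i : ℂ) * τ (w i)‖ : ℂ)) ^ 2 =
        ∑ i, ∑ j, τ (w i) * conj (τ (w j)) * (x i : ℂ) * (x j : ℂ) := by
      intro τ
      rw [← Complex.mul_conj', map_sum, Finset.sum_mul_sum]
      refine Finset.sum_congr rfl fun i _ => Finset.sum_congr rfl fun j _ => ?_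
      rw [map_mul, Complex.conj_ofReal]
      ring
    simp only [h1]
    symm
    rw [Finset.sum_comm]
    refine Finset.sum_congr rfl fun i _ => ?_
    rw [Finset.sum_comm]
    refine Finset.sum_congr rfl fun j _ => ?_
    rw [Finset.sum_mul, Finset.sum_mul]
  exact_mod_cast h

/-- the integral basis, indexed by `Fin D` -/
def wb (f : Fin D ≃ (L →+* ℂ)) : Fin D → L := fun i =>
  integralBasis L (equivReindex L (f i))

theorem det_gram (f : Fin D ≃ (L →+* ℂ)) :
    (gram (wb f)).det = |(discr L : ℝ)| := by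
  classical
  set N : Matrix (Fin D) (Fin D) ℂ := (basisMatrix L).submatrix f f with hN
  have hNe : ∀ i k, N i k = (f k) (wb f i) := by
    intro i k
    rw [hN, Matrix.submatrix_apply]
    simp [wb]
  have h1 : (gram (wb f)).map Complex.ofRealHom = N * N.conjTranspose := by
    ext i j
    rw [Matrix.map_apply, Matrix.mul_apply, Complex.ofRealHom_eq_coe, ofReal_gram,
      ← Equiv.sum_comp f]
    refine Finset.sum_congr rfl fun k _ => ?_
    rw [Matrix.conjTranspose_apply, hNe, hNe]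
    rfl
  have h2 : (((gram (wb f)).det : ℝ) : ℂ) = N.det * star N.det := by
    have := Complex.ofRealHom.map_det (gram (wb f))
    rw [RingHom.mapMatrix_apply, h1, Matrix.det_mul, Matrix.det_conjTranspose] at this
    exact this
  have h3 : N.det = (basisMatrix L).det := by rw [hN, Matrix.det_submatrix_equiv_self]
  have h4 : ‖N.det‖ ^ 2 = |(discr L : ℝ)| := by
    rw [h3, ← norm_pow, ← discr_eq_basisMatrix_det_sq]
    rw [show ((discr L : ℤ) : ℂ) = (((discr L : ℤ) : ℝ) : ℂ) by push_cast; rfl,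
      Complex.norm_real, Real.norm_eq_abs]
  have h5 : (((gram (wb f)).det : ℝ) : ℂ) = ((‖N.det‖ ^ 2 : ℝ) : ℂ) := by
    rw [h2, show star N.det = conj N.det from rfl, Complex.mul_conj']
    push_cast
    rfl
  rw [← h4]
  exact_mod_cast h5

theorem gram_symm (i j : Fin D) : gram w j i = gram w i j := by
  unfold gram
  have : (∑ τ : L →+* ℂ, τ (w j) * conj (τ (w i))) =
      conj (∑ τ : L →+* ℂ, τ (w i) * conj (τ (w j))) := by
    rw [map_sum]
    refine Finset.sum_congr rfl fun τ _ => ?_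
    rw [map_mul, Complex.conj_conj, mul_comm]
  rw [this, Complex.conj_re]

theorem posDef_gram (f : Fin D ≃ (L →+* ℂ)) : (gram (wb f)).PosDef := by
  classical
  refine Matrix.PosDef.of_dotProduct_mulVec_pos ?_ ?_
  · ext i j
    rw [Matrix.conjTranspose_apply, star_trivial]
    exact gram_symm _ _ _
  · intro x hx
    rw [← Pool.Agent.GE.Mink.Q_eq, Q_gram]
    refine lt_of_le_of_ne (Finset.sum_nonneg fun _ _ => sq_nonneg _) fun h0 => hx ?_
    have h1 : ∀ τ : L →+* ℂ, ∑ i, (x i : ℂ) * τ (wb f i) = 0 := by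
      intro τ
      have := (Finset.sum_eq_zero_iff_of_nonneg (fun _ _ => sq_nonneg _)).1 h0.symm τ
        (Finset.mem_univ _)
      exact norm_eq_zero.1 (pow_eq_zero_iff two_ne_zero |>.1 this)
    have h2 : ((basisMatrix L).submatrix f f).det ≠ 0 := by
      rw [Matrix.det_submatrix_equiv_self]
      exact det_of_basisMatrix_non_zero L
    have h3 := Matrix.eq_zero_of_vecMul_eq_zero h2 (v := fun i => (x i : ℂ)) (by
      funext k
      rw [Pi.zero_apply, ← h1 (f k)]
      unfold Matrix.vecMul dotProduct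
      refine Finset.sum_congr rfl fun i _ => ?_
      show (x i : ℂ) * basisMatrix L (f i) (f k) = (x i : ℂ) * (f k) (wb f i)
      simp [wb])
    funext i
    have := congrFun h3 i
    simpa using this

end gram

theorem exists_le_place {L : Type u} [Field L] [NumberField L] {x : L} (hx : IsIntegral ℤ x)
    (hx0 : x ≠ 0) : 1 ≤ ∑ τ : L →+* ℂ, ‖τ x‖ ^ 2 := by
  obtain ⟨w, hw⟩ : ∃ w : InfinitePlace L, 1 ≤ w x := by
    by_contra hcon
    push Not at hcon
    obtain ⟨w⟩ : Nonempty (InfinitePlace L) := inferInstance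
    have := InfinitePlace.one_le_of_lt_one (w := w) (a := (⟨x, hx⟩ : 𝓞 L))
      (fun h => hx0 (congrArg Subtype.val h)) (fun z _ => hcon z)
    exact absurd this (not_le.2 (hcon w))
  rw [← InfinitePlace.norm_embedding_eq] at hw
  calc (1 : ℝ) ≤ ‖w.embedding x‖ ^ 2 := by nlinarith
    _ ≤ _ := Finset.single_le_sum (f := fun τ : L →+* ℂ => ‖τ x‖ ^ 2)
      (fun _ _ => sq_nonneg _) (Finset.mem_univ _)

/-- a number field of degree `D` has a basis of integers all whose conjugates are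
`O(|disc|^(2/D))` -/
theorem exists_small_basis (D : ℕ) (hD : 0 < D) : ∃ C : ℝ, 1 ≤ C ∧
    ∀ (L : Type u) [Field L] [NumberField L], Module.finrank ℚ L = D →
      ∃ v : Fin D → L, LinearIndependent ℚ v ∧ (∀ i, IsIntegral ℤ (v i)) ∧
        ∀ i (φ : L →+* ℂ), ‖φ (v i)‖ ≤ C * |(discr L : ℝ)| ^ ((2 : ℝ) / D) := by
  classical
  have hC0 : (1 : ℝ) ≤ (4 / 3) ^ (D ^ 2) := one_le_pow₀ (by norm_num)
  refine ⟨((4 / 3 : ℝ) ^ (D ^ 2)) ^ ((2 : ℝ) / D), Real.one_le_rpow hC0 (by positivity), ?_⟩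
  intro L _ _ hL
  obtain ⟨f⟩ : Nonempty (Fin D ≃ (L →+* ℂ)) := ⟨Fintype.equivOfCardEq (by
    rw [Fintype.card_fin, Embeddings.card, hL])⟩
  obtain ⟨U, hU, hprod⟩ := Pool.Agent.GE.Mink.exists_reduced D (gram (wb f)) (posDef_gram f)
  rw [det_gram] at hprod
  set v : Fin D → L := fun i => ∑ j, ((U i j : ℤ) : L) * wb f j with hv
  have hτ : ∀ i (τ : L →+* ℂ), τ (v i) =
      ∑ j, ((Pool.Agent.GE.Mink.rv (U i) j : ℝ) : ℂ) * τ (wb f j) := by
    intro i τ
    rw [hv]
    simp only [map_sum, map_mul, map_intCast, Pool.Agent.GE.Mink.rv]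
    refine Finset.sum_congr rfl fun j _ => ?_
    push_cast
    rfl
  have hq : ∀ i, Pool.Agent.GE.Mink.Q (gram (wb f)) (Pool.Agent.GE.Mink.rv (U i)) =
      ∑ τ : L →+* ℂ, ‖τ (v i)‖ ^ 2 := by
    intro i
    rw [Q_gram]
    refine Finset.sum_congr rfl fun τ _ => ?_
    rw [hτ]
  simp only [hq] at hprod
  have hint : ∀ i, IsIntegral ℤ (v i) := by
    intro i
    refine IsIntegral.sum _ fun j _ => IsIntegral.mul ?_ ?_
    · have := isIntegral_algebraMap (R := ℤ) (A := L) (x := U i j)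
      simpa using this
    · unfold wb
      rw [integralBasis_apply]
      exact RingOfIntegers.isIntegral_coe _
  let bw : Module.Basis (Fin D) ℚ L := (integralBasis L).reindex (f.trans (equivReindex L)).symm
  have hbw : ∀ i, bw i = wb f i := by
    intro i
    simp [bw, wb]
  have hvb : ∀ i, v i = ∑ j, ((U i j : ℤ) : ℚ) • bw j := by
    intro i
    rw [hv]
    refine Finset.sum_congr rfl fun j _ => ?_
    rw [hbw, Algebra.smul_def]
    simp
  have hLI : LinearIndependent ℚ v := by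
    refine (bw.is_basis_iff_det.2 ?_).1
    rw [Module.Basis.det_apply]
    have : bw.toMatrix v = (U.map (Int.castRingHom ℚ)).transpose := by
      ext k i
      rw [Module.Basis.toMatrix_apply, hvb, bw.repr_sum_self, Matrix.transpose_apply,
        Matrix.map_apply]
      simp
    rw [this, Matrix.det_transpose, ← RingHom.mapMatrix_apply, ← RingHom.map_det]
    exact hU.map _
  have hq1 : ∀ i, 1 ≤ ∑ τ : L →+* ℂ, ‖τ (v i)‖ ^ 2 := fun i =>
    exists_le_place (hint i) (hLI.ne_zero i)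
  have hdisc : (1 : ℝ) ≤ |(discr L : ℝ)| := by
    have h1 : (1 : ℤ) ≤ |discr L| := Int.one_le_abs (discr_ne_zero L)
    have h2 : ((1 : ℤ) : ℝ) ≤ ((|discr L| : ℤ) : ℝ) := by exact_mod_cast h1
    simpa [Int.cast_abs] using h2
  have hX : (1 : ℝ) ≤ (4 / 3) ^ (D ^ 2) * |(discr L : ℝ)| := by nlinarith
  have hcard := span_card_lemma hD (fun i => ∑ τ : L →+* ℂ, ‖τ (v i)‖ ^ 2) hq1 hX hprod
  obtain ⟨a, b, ha, hb, hab⟩ := exists_products hL v hLI _ hcard
  refine ⟨fun i => v (a i) * v (b i), hab, fun i => (hint _).mul (hint _), ?_⟩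
  intro i φ
  have hbound : ∀ j, j ∈ (Finset.univ.filter fun i => ∑ τ : L →+* ℂ, ‖τ (v i)‖ ^ 2 ≤
      ((4 / 3) ^ (D ^ 2) * |(discr L : ℝ)|) ^ ((2 : ℝ) / D)) → ‖φ (v j)‖ ^ 2 ≤
      ((4 / 3) ^ (D ^ 2) * |(discr L : ℝ)|) ^ ((2 : ℝ) / D) := by
    intro j hj
    refine le_trans ?_ (Finset.mem_filter.1 hj).2
    exact Finset.single_le_sum (f := fun τ : L →+* ℂ => ‖τ (v j)‖ ^ 2)
      (fun _ _ => sq_nonneg _) (Finset.mem_univ _)
  have h1 := hbound _ (ha i)
  have h2 := hbound _ (hb i)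
  rw [map_mul, norm_mul, ← Real.mul_rpow (by positivity) (abs_nonneg _)]
  nlinarith [norm_nonneg (φ (v (a i))), norm_nonneg (φ (v (b i))),
    sq_nonneg (‖φ (v (a i))‖ - ‖φ (v (b i))‖)]

end VX
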